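import Mathlib

open Finset
open scoped Classical

namespace Pool.Agent.Helper20.Dense

section Om

variable {V : Type*} [Fintype V] [DecidableEq V] (G : SimpleGraph V)

/-- the clique number of the subgraph induced on `X` -/
noncomputable def om (X : Finset V) : ℕ :=
  (X.powerset.filter (fun S : Finset V => G.IsClique (S : Set V))).sup Finset.card

lemma card_le_om {X S : Finset V} (hS : S ⊆ X) (hc : G.IsClique (S : Set V)) : S.card ≤ om G X := by
  classical
  unfold om
  exact Finset.le_sup (f := Finset.card) (Finset.mem_filter.mpr ⟨Finset.mem_powerset.mpr hS, hc⟩)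

lemma exists_clique (X : Finset V) : ∃ S ⊆ X, G.IsClique (S : Set V) ∧ S.card = om G X := by
  classical
  have h1 : (X.powerset.filter (fun S : Finset V => G.IsClique (S : Set V))).Nonempty :=
    ⟨∅, by simp [SimpleGraph.isClique_iff]⟩
  obtain ⟨S, hS, h2⟩ := Finset.exists_mem_eq_sup _ h1 Finset.card
  rw [Finset.mem_filter, Finset.mem_powerset] at hS
  exact ⟨S, hS.1, hS.2, h2.symm⟩

lemma om_mono {X Y : Finset V} (h : X ⊆ Y) : om G X ≤ om G Y := by
  obtain ⟨S, hS, hc, h1⟩ := exists_clique G X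
  rw [← h1]
  exact card_le_om G (hS.trans h) hc

lemma om_pos {X : Finset V} (h : X.Nonempty) : 1 ≤ om G X := by
  obtain ⟨x, hx⟩ := h
  have h1 := card_le_om G (X := X) (S := {x}) (by simpa using hx) (by simp [SimpleGraph.isClique_iff])
  simpa using h1

lemma om_univ_le : om G Finset.univ ≤ G.cliqueNum := by
  obtain ⟨S, _, hc, h1⟩ := exists_clique G Finset.univ
  rw [← h1]
  exact hc.card_le_cliqueNum

end Om

section Tail

variable {V : Type*} [DecidableEq V] (G : SimpleGraph V)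

/-- `b` is the last vertex of an induced path on `i + 1` vertices all of whose other vertices
are outside `D` and have no neighbour in `D`. -/
def Tail (i : ℕ) (b : V) (D : Finset V) : Prop :=
  ∃ v : ℕ → V, v i = b ∧
    (∀ j k, j < k → k ≤ i → v j ≠ v k ∧ (G.Adj (v j) (v k) ↔ j + 1 = k)) ∧
    ∀ j < i, ∀ d ∈ D, v j ≠ d ∧ ¬ G.Adj (v j) d

lemma Tail.zero (b : V) (D : Finset V) : Tail G 0 b D :=
  ⟨fun _ => b, rfl, fun j k hjk hk => by omega, fun j hj => by omega⟩

lemma Tail.step {i : ℕ} {u b : V} {D D' : Finset V} (h : Tail G i u D) (hb : b ∈ D)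
    (hub : G.Adj u b) (hD' : D' ⊆ D) (hu : ∀ d ∈ D', u ≠ d ∧ ¬ G.Adj u d) :
    Tail G (i + 1) b D' := by
  obtain ⟨v, hv, h1, h2⟩ := h
  refine ⟨Function.update v (i + 1) b, by simp, ?_, ?_⟩
  · intro j k hjk hk
    have hj : j ≠ i + 1 := by omega
    rw [Function.update_of_ne hj]
    by_cases hki : k = i + 1
    · rw [hki, Function.update_self]
      by_cases hji : j = i
      · rw [hji, hv]
        exact ⟨hub.ne, by simp [hub]⟩
      · have h3 := h2 j (by omega) b hb
        refine ⟨h3.1, ?_⟩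
        constructor
        · intro h4
          exact absurd h4 h3.2
        · intro h4
          omega
    · rw [Function.update_of_ne hki]
      exact h1 j k hjk (by omega)
  · intro j hj d hd
    have hj' : j ≠ i + 1 := by omega
    rw [Function.update_of_ne hj']
    by_cases hji : j = i
    · rw [hji, hv]
      exact hu d hd
    · exact h2 j (by omega) d (hD' hd)

lemma Tail.embedding {i : ℕ} {b : V} {D : Finset V} (h : Tail G i b D) :
    Nonempty (SimpleGraph.pathGraph (i + 1) ↪g G) := by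
  obtain ⟨v, hv, h1, h2⟩ := h
  refine ⟨⟨⟨fun j => v j.val, ?_⟩, ?_⟩⟩
  · intro j k hjk
    by_contra hne
    rcases lt_or_gt_of_ne hne with hlt | hlt
    · exact (h1 j.val k.val hlt (by omega)).1 hjk
    · exact (h1 k.val j.val hlt (by omega)).1 hjk.symm
  · intro j k
    simp only [Function.Embedding.coeFn_mk, SimpleGraph.pathGraph_adj]
    rcases lt_trichotomy j.val k.val with hlt | heq | hlt
    · rw [(h1 j.val k.val hlt (by omega)).2]
      omega
    · rw [heq]
      constructor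
      · intro h3
        exact absurd rfl h3.ne
      · intro h3
        omega
    · rw [G.adj_comm, (h1 k.val j.val hlt (by omega)).2]
      omega

end Tail

section Mu

variable {V : Type*} [Fintype V] [DecidableEq V] (G : SimpleGraph V)

/-- monotone subadditive set functions -/
structure IsMu (μ : Finset V → ℝ) : Prop where
  empty : μ ∅ = 0
  mono : ∀ X Y, X ⊆ Y → μ X ≤ μ Y
  sub : ∀ X Y, μ (X ∪ Y) ≤ μ X + μ Y

variable {μ : Finset V → ℝ}

lemma IsMu.nonneg (h : IsMu μ) (X : Finset V) : 0 ≤ μ X := by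
  rw [← h.empty]
  exact h.mono _ _ (Finset.empty_subset _)

lemma IsMu.le_add (h : IsMu μ) {X Y Z : Finset V} (hX : X ⊆ Y ∪ Z) : μ X ≤ μ Y + μ Z :=
  (h.mono _ _ hX).trans (h.sub _ _)

lemma IsMu.nonempty (h : IsMu μ) {X : Finset V} (hX : 0 < μ X) : X.Nonempty := by
  rw [Finset.nonempty_iff_ne_empty]
  rintro rfl
  rw [h.empty] at hX
  exact absurd hX (lt_irrefl _)

lemma IsMu.biUnion_le (h : IsMu μ) {ι : Type*} [DecidableEq ι] (K : Finset ι)
    (f : ι → Finset V) : μ (K.biUnion f) ≤ ∑ i ∈ K, μ (f i) := by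
  induction K using Finset.induction_on with
  | empty => simp [h.empty]
  | insert a s ha ih =>
    rw [Finset.biUnion_insert, Finset.sum_insert ha]
    exact (h.sub _ _).trans (by linarith)

/-- extremal sets for the exponent `g` -/
def Extr (μ : Finset V → ℝ) (g : ℕ) (D : Finset V) : Prop :=
  ∀ X ⊆ D, μ X * (om G D : ℝ) ^ g ≤ μ D * (om G X : ℝ) ^ g

lemma exists_extr (h : IsMu μ) (g : ℕ) {N : Finset V} (hN : N.Nonempty) :
    ∃ D ⊆ N, D.Nonempty ∧ Extr G μ g D ∧
      μ N * (om G D : ℝ) ^ g ≤ μ D * (om G N : ℝ) ^ g := by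
  classical
  obtain ⟨D, hD, hmax⟩ := Finset.exists_max_image
    (N.powerset.filter (fun X => X.Nonempty)) (fun X => μ X / (om G X : ℝ) ^ g)
    ⟨N, by simp [hN]⟩
  rw [Finset.mem_filter, Finset.mem_powerset] at hD
  have hpos : ∀ X : Finset V, X.Nonempty → (0 : ℝ) < (om G X : ℝ) ^ g := by
    intro X hX
    have := om_pos G hX
    positivity
  have hcmp : ∀ X ⊆ N, X.Nonempty → μ X * (om G D : ℝ) ^ g ≤ μ D * (om G X : ℝ) ^ g := by
    intro X hX hXne
    have h1 := hmax X (by simp [hX, hXne])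
    rwa [div_le_div_iff₀ (hpos X hXne) (hpos D hD.2)] at h1
  refine ⟨D, hD.1, hD.2, fun X hX => ?_, hcmp N (Finset.Subset.refl _) hN⟩
  by_cases hXne : X.Nonempty
  · exact hcmp X (hX.trans hD.1) hXne
  · rw [Finset.not_nonempty_iff_eq_empty] at hXne
    rw [hXne, h.empty, zero_mul]
    exact mul_nonneg (h.nonneg _) (by positivity)

/-- A set `B` which is nearly complete to an extremal set `D'`. -/
lemma near_complete (h : IsMu μ) {g' W : ℕ} (hg' : 1 ≤ g') {D D' B : Finset V} (hD' : D' ⊆ D)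
    (hB : B ⊆ D) (hext : Extr G μ g' D') (hW1 : 1 ≤ W) (hW : om G D ≤ W) (hpos : 0 < μ D')
    (hnc : ∀ b ∈ B, μ (D'.filter (fun x => ¬ G.Adj b x)) < μ D' / (2 * (W : ℝ) ^ 2)) :
    om G B + om G D' ≤ om G D := by
  classical
  obtain ⟨K, hKB, hKc, hK⟩ := exists_clique G B
  set Ds := D'.filter (fun x => ∀ b ∈ K, G.Adj b x) with hDs
  have hWr : (1 : ℝ) ≤ W := by exact_mod_cast hW1
  have hKW : (K.card : ℝ) ≤ W := by
    have h1 := card_le_om G (hKB.trans hB) hKc
    exact_mod_cast h1.trans hW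
  have h1 : D' ⊆ Ds ∪ K.biUnion (fun b => D'.filter (fun x => ¬ G.Adj b x)) := by
    intro x hx
    rw [Finset.mem_union]
    by_cases h2 : ∀ b ∈ K, G.Adj b x
    · left
      exact Finset.mem_filter.mpr ⟨hx, h2⟩
    · right
      push Not at h2
      obtain ⟨b, hb, hbx⟩ := h2
      exact Finset.mem_biUnion.mpr ⟨b, hb, Finset.mem_filter.mpr ⟨hx, hbx⟩⟩
  have h2 : μ D' ≤ μ Ds + ∑ b ∈ K, μ (D'.filter (fun x => ¬ G.Adj b x)) :=
    (h.le_add h1).trans (by linarith [h.biUnion_le K (fun b => D'.filter (fun x => ¬ G.Adj b x))])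
  have h3 : ∑ b ∈ K, μ (D'.filter (fun x => ¬ G.Adj b x)) ≤ K.card * (μ D' / (2 * (W : ℝ) ^ 2)) := by
    rw [← nsmul_eq_mul, ← Finset.sum_const]
    exact Finset.sum_le_sum (fun b hb => (hnc b (hKB hb)).le)
  have h4 : (K.card : ℝ) * (μ D' / (2 * (W : ℝ) ^ 2)) ≤ μ D' / (2 * W) := by
    calc (K.card : ℝ) * (μ D' / (2 * (W : ℝ) ^ 2)) ≤ W * (μ D' / (2 * (W : ℝ) ^ 2)) :=
          mul_le_mul_of_nonneg_right hKW (by positivity)
      _ = μ D' / (2 * W) := by
          field_simp
  have h5 : μ D' - μ D' / (2 * W) ≤ μ Ds := by linarith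
  have hmW : om G D' ≤ W := (om_mono G hD').trans hW
  have hD'ne : D'.Nonempty := h.nonempty hpos
  have hm1 : 1 ≤ om G D' := om_pos G hD'ne
  have h6 : om G D' ≤ om G Ds := by
    by_contra hcon
    push Not at hcon
    have h7 := hext Ds (Finset.filter_subset _ _)
    have hm1r : (1 : ℝ) ≤ (om G D' : ℝ) := by exact_mod_cast hm1
    have hmWr : (om G D' : ℝ) ≤ W := by exact_mod_cast hmW
    have h8 : (om G Ds : ℝ) ≤ (om G D' : ℝ) - 1 := by
      have : om G Ds + 1 ≤ om G D' := hcon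
      have h9 : ((om G Ds + 1 : ℕ) : ℝ) ≤ (om G D' : ℝ) := by exact_mod_cast this
      push_cast at h9
      linarith
    have h9 : (om G Ds : ℝ) ^ g' ≤ (om G D' : ℝ) ^ (g' - 1) * ((om G D' : ℝ) - 1) := by
      obtain ⟨j, rfl⟩ : ∃ j, g' = j + 1 := ⟨g' - 1, by omega⟩
      rw [Nat.add_sub_cancel, pow_succ]
      apply mul_le_mul _ h8 (by positivity) (by positivity)
      apply pow_le_pow_left₀ (by positivity)
      linarith
    have h10 : (om G D' : ℝ) ^ g' = (om G D' : ℝ) ^ (g' - 1) * (om G D' : ℝ) := by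
      rw [← pow_succ]
      congr 1
      omega
    have hP : (0 : ℝ) < (om G D' : ℝ) ^ (g' - 1) := by positivity
    -- combine
    have h11 : (μ D' - μ D' / (2 * W)) * ((om G D' : ℝ) ^ (g' - 1) * (om G D' : ℝ)) ≤
        μ D' * ((om G D' : ℝ) ^ (g' - 1) * ((om G D' : ℝ) - 1)) := by
      rw [← h10]
      calc (μ D' - μ D' / (2 * W)) * (om G D' : ℝ) ^ g' ≤ μ Ds * (om G D' : ℝ) ^ g' :=
            mul_le_mul_of_nonneg_right h5 (by positivity)
        _ ≤ μ D' * (om G Ds : ℝ) ^ g' := h7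
        _ ≤ _ := mul_le_mul_of_nonneg_left h9 hpos.le
    have h12 : μ D' / (2 * W) * (om G D' : ℝ) < μ D' := by
      rw [div_mul_eq_mul_div, div_lt_iff₀ (by positivity)]
      nlinarith
    have h13 : (μ D' - μ D' / (2 * W)) * ((om G D' : ℝ) ^ (g' - 1) * (om G D' : ℝ)) -
        μ D' * ((om G D' : ℝ) ^ (g' - 1) * ((om G D' : ℝ) - 1)) =
        (om G D' : ℝ) ^ (g' - 1) * (μ D'  - μ D' / (2 * W) * (om G D' : ℝ)) := by ring
    have h14 : 0 < (om G D' : ℝ) ^ (g' - 1) * (μ D'  - μ D' / (2 * W) * (om G D' : ℝ)) :=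
      mul_pos hP (by linarith)
    linarith
  obtain ⟨L, hL, hLc, hLm⟩ := exists_clique G Ds
  have hadj : ∀ b ∈ K, ∀ x ∈ L, G.Adj b x := fun b hb x hx => (Finset.mem_filter.mp (hL hx)).2 b hb
  have hdisj : Disjoint K L := by
    rw [Finset.disjoint_left]
    intro x hx hx'
    exact (hadj x hx x hx').ne rfl
  have h7 : G.IsClique ((K ∪ L : Finset V) : Set V) := by
    rw [Finset.coe_union]
    intro x hx y hy hxy
    rcases hx with hx | hx
    · rcases hy with hy | hy
      · exact hKc hx hy hxy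
      · exact hadj x hx y hy
    · rcases hy with hy | hy
      · exact (hadj y hy x hx).symm
      · exact hLc hx hy hxy
  have h8 : (K ∪ L) ⊆ D := Finset.union_subset (hKB.trans hB)
    ((hL.trans (Finset.filter_subset _ _)).trans hD')
  have h9 := card_le_om G h8 h7
  rw [Finset.card_union_of_disjoint hdisj, hK, hLm] at h9
  omega

/-- The basic step. -/
lemma step (h : IsMu μ) {g' s W : ℕ} (hg' : 1 ≤ g') (hs : 2 ≤ s) (hg3 : 3 ≤ g' + s)
    {D N B : Finset V} (hext : Extr G μ (g' + s) D) (hpos : 0 < μ D) (hW1 : 1 ≤ W)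
    (hW : om G D ≤ W) (hN : N ⊆ D) (hB : B ⊆ D) (hcov : D ⊆ N ∪ B) {δ : ℝ} (hδ : 0 < δ)
    (hμN : δ * μ D ≤ μ N) (hμB : μ D / 4 ≤ μ B) :
    ∃ D' ⊆ N, ∃ B' ⊆ B, D'.Nonempty ∧ Extr G μ g' D' ∧ 0 < μ D' ∧
      μ D ≤ 8 * (om G D : ℝ) * μ B' ∧
      (∀ b ∈ B', μ D' / (2 * (W : ℝ) ^ 2) ≤ μ (D'.filter (fun x => ¬ G.Adj b x))) ∧
      δ * (om G D : ℝ) ^ s ≤ (om G D' : ℝ) ^ s ∧
      δ * μ D * (om G D' : ℝ) ^ g' ≤ μ D' * (om G D : ℝ) ^ g' := by
  classical
  have hNpos : 0 < μ N := lt_of_lt_of_le (by positivity) hμN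
  obtain ⟨D', hD'N, hD'ne, hext', hcmp⟩ := exists_extr G h g' (h.nonempty hNpos)
  have hDne : D.Nonempty := h.nonempty hpos
  have hω1 : (1 : ℝ) ≤ (om G D : ℝ) := by exact_mod_cast om_pos G hDne
  have hm1 : (1 : ℝ) ≤ (om G D' : ℝ) := by exact_mod_cast om_pos G hD'ne
  set w : ℝ := (om G D : ℝ) with hw
  set m : ℝ := (om G D' : ℝ) with hm
  have hmw : m ≤ w := by
    rw [hm, hw]
    exact_mod_cast om_mono G (hD'N.trans hN)
  have hcmp' : μ N * m ^ g' ≤ μ D' * w ^ g' := by
    refine hcmp.trans (mul_le_mul_of_nonneg_left ?_ (h.nonneg _))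
    apply pow_le_pow_left₀ (by positivity)
    rw [hw]
    exact_mod_cast om_mono G hN
  have hD'pos : 0 < μ D' := by
    have h1 : 0 < μ N * m ^ g' := by positivity
    have h2 : 0 < μ D' * w ^ g' := lt_of_lt_of_le h1 hcmp'
    exact pos_of_mul_pos_left h2 (by positivity)
  -- the exponent inequality
  have hT1 : μ N * w ^ s ≤ μ D * m ^ s := by
    have h1 := hext D' (hD'N.trans hN)
    rw [← hw, ← hm, pow_add, pow_add] at h1
    have h2 : μ N * m ^ g' * w ^ s ≤ μ D * m ^ s * m ^ g' := by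
      calc μ N * m ^ g' * w ^ s ≤ μ D' * w ^ g' * w ^ s :=
            mul_le_mul_of_nonneg_right hcmp' (by positivity)
        _ = μ D' * (w ^ g' * w ^ s) := by ring
        _ ≤ μ D * (m ^ g' * m ^ s) := h1
        _ = μ D * m ^ s * m ^ g' := by ring
    have h3 : (μ N * w ^ s) * m ^ g' ≤ (μ D * m ^ s) * m ^ g' := by
      calc (μ N * w ^ s) * m ^ g' = μ N * m ^ g' * w ^ s := by ring
        _ ≤ _ := h2
    exact le_of_mul_le_mul_right h3 (by positivity)
  set B0 := B.filter (fun b => μ (D'.filter (fun x => ¬ G.Adj b x)) < μ D' / (2 * (W : ℝ) ^ 2))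
    with hB0
  set B' := B.filter (fun b => ¬ μ (D'.filter (fun x => ¬ G.Adj b x)) < μ D' / (2 * (W : ℝ) ^ 2))
    with hB'
  have hBB : μ B ≤ μ B0 + μ B' := by
    apply h.le_add
    rw [hB0, hB', Finset.filter_union_filter_not_eq]
  have hom : om G B0 + om G D' ≤ om G D :=
    near_complete G h hg' (hD'N.trans hN) ((Finset.filter_subset _ _).trans hB) hext' hW1 hW hD'pos
      (fun b hb => (Finset.mem_filter.mp hb).2)
  have homr : (om G B0 : ℝ) ≤ w - m := by
    have : ((om G B0 + om G D' : ℕ) : ℝ) ≤ (om G D : ℝ) := by exact_mod_cast hom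
    push_cast at this
    rw [hw, hm]
    linarith
  have hB0le : μ B0 * w ^ (g' + s) ≤ μ D * (w - m) ^ (g' + s) := by
    have h1 := hext B0 ((Finset.filter_subset _ _).trans hB)
    refine h1.trans (mul_le_mul_of_nonneg_left ?_ hpos.le)
    exact pow_le_pow_left₀ (by positivity) homr _
  have hwpos : 0 < w := by linarith
  have hx : 0 ≤ (w - m) / w := div_nonneg (by linarith) hwpos.le
  have hB0le' : μ B0 ≤ μ D * ((w - m) / w) ^ (g' + s) := by
    rw [div_pow, ← mul_div_assoc, le_div_iff₀ (by positivity)]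
    exact hB0le
  have hmain : μ D ≤ 8 * w * μ B' := by
    by_cases hcase : 2 * m ≤ w
    · -- x ≤ 1/2
      have h1 : μ D ≤ μ N + μ B := h.le_add hcov
      have h2 : μ N ≤ μ D * (m / w) ^ s := by
        rw [div_pow, ← mul_div_assoc, le_div_iff₀ (by positivity)]
        exact hT1
      have hy0 : 0 ≤ m / w := by positivity
      have hy1 : m / w ≤ 1 / 2 := by
        rw [div_le_div_iff₀ hwpos (by norm_num)]
        linarith
      have h3 : (m / w) ^ s ≤ (m / w) ^ 2 :=
        pow_le_pow_of_le_one hy0 (by linarith) hs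
      have h4 : (m / w) ^ 2 ≤ (m / w) / 2 := by nlinarith
      have h5 : ((w - m) / w) ^ (g' + s) ≤ (w - m) / w := by
        have h6 : (w - m) / w ≤ 1 := by
          rw [div_le_one hwpos]
          linarith
        calc ((w - m) / w) ^ (g' + s) ≤ ((w - m) / w) ^ 1 :=
              pow_le_pow_of_le_one hx h6 (by omega)
          _ = _ := pow_one _
      have h6 : (w - m) / w = 1 - m / w := by
        field_simp
      rw [h6] at h5 hB0le'
      have h7 : μ D * ((m / w) / 2) ≤ μ B' := by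
        have h8 : μ N ≤ μ D * ((m / w) / 2) :=
          h2.trans (mul_le_mul_of_nonneg_left (h3.trans h4) hpos.le)
        have h9 : μ B0 ≤ μ D * (1 - m / w) :=
          hB0le'.trans (mul_le_mul_of_nonneg_left h5 hpos.le)
        nlinarith
      have h8 : 1 / w ≤ m / w := by
        rw [div_le_div_iff₀ hwpos hwpos]
        nlinarith
      have h9 : μ D * (1 / w / 2) ≤ μ B' := by
        refine le_trans (mul_le_mul_of_nonneg_left ?_ hpos.le) h7
        linarith
      have h10 : μ D = 2 * w * (μ D * (1 / w / 2)) := by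
        field_simp
      have h11 : 2 * w * (μ D * (1 / w / 2)) ≤ 2 * w * μ B' :=
        mul_le_mul_of_nonneg_left h9 (by positivity)
      have h12 : 0 ≤ w * μ B' := mul_nonneg hwpos.le (h.nonneg _)
      linarith
    · push Not at hcase
      have hy1 : (w - m) / w ≤ 1 / 2 := by
        rw [div_le_div_iff₀ hwpos (by norm_num)]
        linarith
      have h1 : ((w - m) / w) ^ (g' + s) ≤ 1 / 8 := by
        calc ((w - m) / w) ^ (g' + s) ≤ ((w - m) / w) ^ 3 :=
              pow_le_pow_of_le_one hx (by linarith) hg3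
          _ ≤ (1 / 2) ^ 3 := pow_le_pow_left₀ hx hy1 3
          _ = 1 / 8 := by norm_num
      have h2 : μ B0 ≤ μ D * (1 / 8) :=
        hB0le'.trans (mul_le_mul_of_nonneg_left h1 hpos.le)
      have h3 : μ D / 8 ≤ μ B' := by linarith
      have h4 : μ B' ≤ w * μ B' := by
        nlinarith [h.nonneg B']
      linarith
  refine ⟨D', hD'N, B', Finset.filter_subset _ _, hD'ne, hext', hD'pos, hmain, ?_, ?_, ?_⟩
  · intro b hb
    exact not_lt.mp (Finset.mem_filter.mp hb).2
  · have h1 : δ * μ D * w ^ s ≤ μ D * m ^ s :=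
      (mul_le_mul_of_nonneg_right hμN (by positivity)).trans hT1
    have h2 : μ D * (δ * w ^ s) ≤ μ D * m ^ s := by
      calc μ D * (δ * w ^ s) = δ * μ D * w ^ s := by ring
        _ ≤ _ := h1
    exact le_of_mul_le_mul_left h2 hpos
  · exact (mul_le_mul_of_nonneg_right hμN (by positivity)).trans hcmp'

end Mu

end Pool.Agent.Helper20.Dense
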