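import Mathlib
import Pool.Agent.Helper20.Dense.Basic

open Finset
open scoped Classical

namespace Pool.Agent.Helper20.Dense

variable {V : Type*} [Fintype V] [DecidableEq V] (G : SimpleGraph V) {μ : Finset V → ℝ}

/-- no two anticomplete disjoint sets are both of measure more than `q` -/
def NoPair (μ : Finset V → ℝ) (q : ℝ) : Prop :=
  ∀ A B : Finset V, Disjoint A B → (∀ a ∈ A, ∀ b ∈ B, ¬ G.Adj a b) → μ A ≤ q ∨ μ B ≤ q

/-- level `i` of the construction -/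
def Lev (μ : Finset V → ℝ) (t W : ℕ) (ρ q : ℝ) (i : ℕ) : Prop :=
  ∃ D B : Finset V, Extr G μ ((2 * t + 2) * (t - i)) D ∧ 0 < μ D ∧ om G D ≤ W ∧ Disjoint B D ∧
    (∀ b ∈ B, Tail G i b D) ∧
    (∀ b ∈ B, μ D / (2 * (W : ℝ) ^ 2) ≤ μ (D.filter (fun x => ¬ G.Adj b x))) ∧
    q < μ B ∧
    (W : ℝ) ^ (2 * t + 2) ≤ (om G D : ℝ) ^ (2 * t + 2) * (2 * (W : ℝ) ^ 2) ^ (i + 1) ∧
    ρ * (om G D : ℝ) ^ ((2 * t + 2) * (t - i)) ≤ μ D * ((2 : ℝ) ^ (t + 1)) ^ (i + 1)

/-- choice of the set `U` -/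
lemma choose_U (h : IsMu μ) {q : ℝ} {D B : Finset V} (hpos : 0 < μ D) (hdisj : Disjoint B D)
    (hno : NoPair G μ q) (hqB : q < μ B) (hqD : q ≤ 3 / 4 * μ D) {δ : ℝ} (hδ : δ ≤ 1 / 2)
    (hb : ∀ b ∈ B, δ * μ D ≤ μ (D.filter (fun x => ¬ G.Adj b x))) :
    ∃ U ⊆ B, δ * μ D ≤ μ (D.filter (fun x => ∀ u ∈ U, ¬ G.Adj u x)) ∧
      μ D / 4 ≤ μ (D.filter (fun x => ∃ u ∈ U, G.Adj u x)) := by
  by_cases hcase : ∃ b ∈ B, μ D / 4 ≤ μ (D.filter (fun x => G.Adj b x))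
  · obtain ⟨b, hbB, hb4⟩ := hcase
    refine ⟨{b}, by simpa using hbB, ?_, ?_⟩
    · have h1 : D.filter (fun x => ∀ u ∈ ({b} : Finset V), ¬ G.Adj u x) =
          D.filter (fun x => ¬ G.Adj b x) := by
        ext x
        simp
      rw [h1]
      exact hb b hbB
    · have h1 : D.filter (fun x => ∃ u ∈ ({b} : Finset V), G.Adj u x) =
          D.filter (fun x => G.Adj b x) := by
        ext x
        simp
      rw [h1]
      exact hb4
  · push Not at hcase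
    -- minimal U with measure of the non-neighbours at most 3/4
    have hex : ∃ U ∈ B.powerset, μ (D.filter (fun x => ∀ u ∈ U, ¬ G.Adj u x)) ≤ 3 / 4 * μ D := by
      refine ⟨B, Finset.mem_powerset.mpr (Finset.Subset.refl _), ?_⟩
      have h1 := hno B (D.filter (fun x => ∀ u ∈ B, ¬ G.Adj u x))
        (hdisj.mono_right (Finset.filter_subset _ _))
        (fun a ha b hb' => (Finset.mem_filter.mp hb').2 a ha)
      rcases h1 with h1 | h1
      · linarith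
      · linarith
    obtain ⟨U, hU, hmin⟩ := Finset.exists_min_image
      (B.powerset.filter (fun U => μ (D.filter (fun x => ∀ u ∈ U, ¬ G.Adj u x)) ≤ 3 / 4 * μ D))
      Finset.card (by
        obtain ⟨U, hU, hU2⟩ := hex
        exact ⟨U, Finset.mem_filter.mpr ⟨hU, hU2⟩⟩)
    rw [Finset.mem_filter, Finset.mem_powerset] at hU
    have hUne : U.Nonempty := by
      rw [Finset.nonempty_iff_ne_empty]
      rintro rfl
      have h1 : D.filter (fun x => ∀ u ∈ (∅ : Finset V), ¬ G.Adj u x) = D := by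
        ext x
        simp
      rw [h1] at hU
      linarith [hU.2]
    obtain ⟨b, hbU⟩ := hUne
    have h1 : ¬ μ (D.filter (fun x => ∀ u ∈ U.erase b, ¬ G.Adj u x)) ≤ 3 / 4 * μ D := by
      intro hcon
      have h2 := hmin (U.erase b) (Finset.mem_filter.mpr ⟨Finset.mem_powerset.mpr
        ((Finset.erase_subset _ _).trans hU.1), hcon⟩)
      have h3 := Finset.card_erase_lt_of_mem hbU
      omega
    push Not at h1
    have h2 : D.filter (fun x => ∀ u ∈ U.erase b, ¬ G.Adj u x) ⊆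
        D.filter (fun x => ∀ u ∈ U, ¬ G.Adj u x) ∪ D.filter (fun x => G.Adj b x) := by
      intro x hx
      rw [Finset.mem_filter] at hx
      rw [Finset.mem_union]
      by_cases hbx : G.Adj b x
      · right
        exact Finset.mem_filter.mpr ⟨hx.1, hbx⟩
      · left
        refine Finset.mem_filter.mpr ⟨hx.1, fun u hu => ?_⟩
        by_cases hub : u = b
        · rw [hub]
          exact hbx
        · exact hx.2 u (Finset.mem_erase.mpr ⟨hub, hu⟩)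
    have h3 := h.le_add h2
    have h4 := hcase b (hU.1 hbU)
    refine ⟨U, hU.1, ?_, ?_⟩
    · nlinarith
    · have h5 : D ⊆ D.filter (fun x => ∀ u ∈ U, ¬ G.Adj u x) ∪
          D.filter (fun x => ∃ u ∈ U, G.Adj u x) := by
        intro x hx
        rw [Finset.mem_union]
        by_cases h6 : ∀ u ∈ U, ¬ G.Adj u x
        · left
          exact Finset.mem_filter.mpr ⟨hx, h6⟩
        · right
          push Not at h6
          exact Finset.mem_filter.mpr ⟨hx, h6⟩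
      have h6 := h.le_add h5
      linarith [hU.2]

/-- numerical propagation -/
lemma numeric {t W i : ℕ} (hW1 : 1 ≤ W) (hi : i + 2 ≤ t + 1) {ρ x y μD μD' : ℝ} {g' : ℕ}
    (hx : 0 < x) (hy : 0 < y) (hμD' : 0 < μD')
    (hρ : 0 ≤ ρ)
    (hJ1 : (W : ℝ) ^ (2 * t + 2) ≤ x ^ (2 * t + 2) * (2 * (W : ℝ) ^ 2) ^ (i + 1))
    (hJ2 : ρ * x ^ (g' + (2 * t + 2)) ≤ μD * ((2 : ℝ) ^ (t + 1)) ^ (i + 1))
    (hT2 : 1 / (2 * (W : ℝ) ^ 2) * μD * y ^ g' ≤ μD' * x ^ g') :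
    ρ * y ^ g' ≤ μD' * ((2 : ℝ) ^ (t + 1)) ^ (i + 2) := by
  have hWr : (1 : ℝ) ≤ W := by exact_mod_cast hW1
  set w : ℝ := (W : ℝ) with hw
  have hwpos : 0 < w := by linarith
  have hc : (0 : ℝ) < (2 : ℝ) ^ (t + 1) := by positivity
  set c : ℝ := (2 : ℝ) ^ (t + 1) with hcdef
  -- x^(2t+2) ≥ w^(2t+2) / (2w²)^(i+1)
  -- step 1 : ρ x^(g'+2t+2) y^g' ≤ 2 w² c^(i+1) μD' x^g'
  have h1 : ρ * x ^ (g' + (2 * t + 2)) * y ^ g' ≤ 2 * w ^ 2 * c ^ (i + 1) * (μD' * x ^ g') := by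
    have h2 : μD * y ^ g' ≤ 2 * w ^ 2 * (μD' * x ^ g') := by
      have h3 := mul_le_mul_of_nonneg_left hT2 (show (0 : ℝ) ≤ 2 * w ^ 2 by positivity)
      have h4 : 2 * w ^ 2 * (1 / (2 * w ^ 2) * μD * y ^ g') = μD * y ^ g' := by
        field_simp
      rwa [h4] at h3
    calc ρ * x ^ (g' + (2 * t + 2)) * y ^ g' ≤ (μD * c ^ (i + 1)) * y ^ g' :=
          mul_le_mul_of_nonneg_right hJ2 (by positivity)
      _ = c ^ (i + 1) * (μD * y ^ g') := by ring
      _ ≤ c ^ (i + 1) * (2 * w ^ 2 * (μD' * x ^ g')) :=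
          mul_le_mul_of_nonneg_left h2 (by positivity)
      _ = _ := by ring
  have h2 : ρ * x ^ (2 * t + 2) * y ^ g' ≤ 2 * w ^ 2 * c ^ (i + 1) * μD' := by
    have h3 : (ρ * x ^ (2 * t + 2) * y ^ g') * x ^ g' ≤ (2 * w ^ 2 * c ^ (i + 1) * μD') * x ^ g' := by
      calc (ρ * x ^ (2 * t + 2) * y ^ g') * x ^ g' = ρ * x ^ (g' + (2 * t + 2)) * y ^ g' := by
            rw [pow_add]
            ring
        _ ≤ _ := h1
        _ = _ := by ring
    exact le_of_mul_le_mul_right h3 (by positivity)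
  have h3 : ρ * y ^ g' * w ^ (2 * t + 2) ≤ (2 * w ^ 2) ^ (i + 2) * c ^ (i + 1) * μD' := by
    calc ρ * y ^ g' * w ^ (2 * t + 2) ≤
        ρ * y ^ g' * (x ^ (2 * t + 2) * (2 * w ^ 2) ^ (i + 1)) :=
          mul_le_mul_of_nonneg_left hJ1 (by positivity)
      _ = (ρ * x ^ (2 * t + 2) * y ^ g') * (2 * w ^ 2) ^ (i + 1) := by ring
      _ ≤ (2 * w ^ 2 * c ^ (i + 1) * μD') * (2 * w ^ 2) ^ (i + 1) :=
          mul_le_mul_of_nonneg_right h2 (by positivity)
      _ = _ := by ring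
  have h4 : (2 * w ^ 2) ^ (i + 2) ≤ c * w ^ (2 * t + 2) := by
    rw [mul_pow, ← pow_mul]
    have h5 : (2 : ℝ) ^ (i + 2) ≤ c := by
      rw [hcdef]
      exact pow_le_pow_right₀ (by norm_num) hi
    have h6 : w ^ (2 * (i + 2)) ≤ w ^ (2 * t + 2) := pow_le_pow_right₀ hWr (by omega)
    exact mul_le_mul h5 h6 (by positivity) hc.le
  have h5 : ρ * y ^ g' * w ^ (2 * t + 2) ≤ (μD' * c ^ (i + 2)) * w ^ (2 * t + 2) := by
    calc ρ * y ^ g' * w ^ (2 * t + 2) ≤ (2 * w ^ 2) ^ (i + 2) * c ^ (i + 1) * μD' := h3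
      _ ≤ (c * w ^ (2 * t + 2)) * c ^ (i + 1) * μD' := by
          apply mul_le_mul_of_nonneg_right _ hμD'.le
          exact mul_le_mul_of_nonneg_right h4 (by positivity)
      _ = _ := by ring
  exact le_of_mul_le_mul_right h5 (by positivity)

/-- from level `i` to level `i + 1` -/
lemma lev_succ (h : IsMu μ) {t W : ℕ} (hW1 : 1 ≤ W) {ρ q : ℝ} (hq : 0 ≤ q)
    (hno : NoPair G μ q) (hρ : 8 * ((2 : ℝ) ^ (t + 1)) ^ t * q < ρ) {i : ℕ} (hi : i + 2 ≤ t)
    (hlev : Lev G μ t W ρ q i) : Lev G μ t W ρ q (i + 1) := by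
  obtain ⟨D, B, hext, hpos, hW, hdisj, htail, hbal, hqB, hJ1, hJ2⟩ := hlev
  have hWr : (1 : ℝ) ≤ W := by exact_mod_cast hW1
  have hDne : D.Nonempty := h.nonempty hpos
  have hx1 : (1 : ℝ) ≤ (om G D : ℝ) := by exact_mod_cast om_pos G hDne
  have hc1 : (1 : ℝ) ≤ (2 : ℝ) ^ (t + 1) := one_le_pow₀ (by norm_num)
  have hρ0 : 0 ≤ ρ := by
    have : 0 ≤ 8 * ((2 : ℝ) ^ (t + 1)) ^ t * q := by positivity
    linarith
  -- μ D > 8 q ω(D)
  have hbig : 8 * (om G D : ℝ) * q < μ D := by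
    have h1 : ρ * (om G D : ℝ) ≤ ρ * (om G D : ℝ) ^ ((2 * t + 2) * (t - i)) := by
      apply mul_le_mul_of_nonneg_left _ hρ0
      calc (om G D : ℝ) = (om G D : ℝ) ^ 1 := (pow_one _).symm
        _ ≤ _ := pow_le_pow_right₀ hx1 (by
          have : 1 ≤ t - i := by omega
          nlinarith)
    have h2 : μ D * ((2 : ℝ) ^ (t + 1)) ^ (i + 1) ≤ μ D * ((2 : ℝ) ^ (t + 1)) ^ t :=
      mul_le_mul_of_nonneg_left (pow_le_pow_right₀ hc1 (by omega)) hpos.le
    have h3 : 8 * ((2 : ℝ) ^ (t + 1)) ^ t * q * (om G D : ℝ) < ρ * (om G D : ℝ) :=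
      mul_lt_mul_of_pos_right hρ (by linarith)
    have h4 : (8 * (om G D : ℝ) * q) * ((2 : ℝ) ^ (t + 1)) ^ t < μ D * ((2 : ℝ) ^ (t + 1)) ^ t := by
      linarith
    exact lt_of_mul_lt_mul_right h4 (by positivity)
  have hqD : q ≤ 3 / 4 * μ D := by nlinarith
  have hδ : 1 / (2 * (W : ℝ) ^ 2) ≤ 1 / 2 := by
    apply one_div_le_one_div_of_le (by norm_num)
    nlinarith
  obtain ⟨U, hUB, hN, hB⟩ := choose_U G h hpos hdisj hno hqB hqD hδ (fun b hb => by
    have := hbal b hb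
    rw [one_div_mul_eq_div]
    exact this)
  set N := D.filter (fun x => ∀ u ∈ U, ¬ G.Adj u x) with hNdef
  set Bh := D.filter (fun x => ∃ u ∈ U, G.Adj u x) with hBhdef
  have hcov : D ⊆ N ∪ Bh := by
    intro x hx
    rw [Finset.mem_union]
    by_cases h6 : ∀ u ∈ U, ¬ G.Adj u x
    · left
      exact Finset.mem_filter.mpr ⟨hx, h6⟩
    · right
      push Not at h6
      exact Finset.mem_filter.mpr ⟨hx, h6⟩
  obtain ⟨ti, hti⟩ : ∃ ti, t - i = ti + 1 := ⟨t - i - 1, by omega⟩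
  have hgi : (2 * t + 2) * (t - i) = (2 * t + 2) * (t - (i + 1)) + (2 * t + 2) := by
    rw [hti, show t - (i + 1) = ti by omega]
    ring
  have hg1 : 1 ≤ (2 * t + 2) * (t - (i + 1)) := by
    have : 1 ≤ t - (i + 1) := by omega
    nlinarith
  rw [hgi] at hext hJ2
  obtain ⟨D', hD'N, B', hB'B, hD'ne, hext', hD'pos, hmain, hbal', hT1, hT2⟩ :=
    step G h (W := W) hg1 (by omega) (by omega) hext hpos hW1 hW (Finset.filter_subset _ _)
      (Finset.filter_subset _ _) hcov (δ := 1 / (2 * (W : ℝ) ^ 2)) (by positivity) hN hB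
  have hD'D : D' ⊆ D := hD'N.trans (Finset.filter_subset _ _)
  refine ⟨D', B', hext', hD'pos, (om_mono G hD'D).trans hW, ?_, ?_, hbal', ?_, ?_, ?_⟩
  · rw [Finset.disjoint_left]
    intro x hx hx'
    have h1 := (Finset.mem_filter.mp (hB'B hx)).2
    obtain ⟨u, hu, hux⟩ := h1
    exact (Finset.mem_filter.mp (hD'N hx')).2 u hu hux
  · intro b hb
    obtain ⟨hbD, u, hu, hub⟩ := Finset.mem_filter.mp (hB'B hb)
    refine (htail u (hUB hu)).step G hbD hub hD'D (fun d hd => ⟨?_, ?_⟩)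
    · rintro rfl
      exact (Finset.disjoint_left.mp hdisj) (hUB hu) (hD'D hd)
    · exact (Finset.mem_filter.mp (hD'N hd)).2 u hu
  · have h1 : 8 * (om G D : ℝ) * q < 8 * (om G D : ℝ) * μ B' := lt_of_lt_of_le hbig hmain
    exact lt_of_mul_lt_mul_left h1 (by positivity)
  · -- J1
    have h2 : (om G D : ℝ) ^ (2 * t + 2) ≤ 2 * (W : ℝ) ^ 2 * (om G D' : ℝ) ^ (2 * t + 2) := by
      have h3 := mul_le_mul_of_nonneg_left hT1 (show (0 : ℝ) ≤ 2 * (W : ℝ) ^ 2 by positivity)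
      have h4 : 2 * (W : ℝ) ^ 2 * (1 / (2 * (W : ℝ) ^ 2) * (om G D : ℝ) ^ (2 * t + 2)) =
          (om G D : ℝ) ^ (2 * t + 2) := by
        field_simp
      rwa [h4] at h3
    calc (W : ℝ) ^ (2 * t + 2) ≤ (om G D : ℝ) ^ (2 * t + 2) * (2 * (W : ℝ) ^ 2) ^ (i + 1) := hJ1
      _ ≤ (2 * (W : ℝ) ^ 2 * (om G D' : ℝ) ^ (2 * t + 2)) * (2 * (W : ℝ) ^ 2) ^ (i + 1) :=
          mul_le_mul_of_nonneg_right h2 (by positivity)
      _ = _ := by ring
  · exact numeric hW1 (by omega) (by linarith) (by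
      have := om_pos G hD'ne
      have h7 : (1 : ℝ) ≤ (om G D' : ℝ) := by exact_mod_cast this
      linarith) hD'pos hρ0 hJ1 hJ2 hT2

/-- level `0` -/
lemma lev_zero (h : IsMu μ) (h1 : ∀ v, μ {v} ≤ 1) {t : ℕ} (ht : 1 ≤ t) {D : Finset V} {ρ q : ℝ}
    (hq : 1 ≤ q) (hext : Extr G μ ((2 * t + 2) * (t + 1)) D) (hpos : 0 < μ D)
    (hρ : 8 * ((2 : ℝ) ^ (t + 1)) ^ t * q < ρ)
    (hρD : ρ * (om G D : ℝ) ^ ((2 * t + 2) * (t + 1)) ≤ μ D) :
    Lev G μ t (om G D) ρ q 0 := by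
  have hDne : D.Nonempty := h.nonempty hpos
  have hW1 : 1 ≤ om G D := om_pos G hDne
  have hx1 : (1 : ℝ) ≤ (om G D : ℝ) := by exact_mod_cast hW1
  have hc1 : (1 : ℝ) ≤ (2 : ℝ) ^ (t + 1) := one_le_pow₀ (by norm_num)
  have hρ8 : 8 * q < ρ := by
    refine lt_of_le_of_lt ?_ hρ
    have : (1 : ℝ) ≤ ((2 : ℝ) ^ (t + 1)) ^ t := one_le_pow₀ hc1
    nlinarith
  have hρ0 : 0 ≤ ρ := by linarith
  have hbig : 8 * (om G D : ℝ) * q < μ D := by
    have h2 : ρ * (om G D : ℝ) ≤ ρ * (om G D : ℝ) ^ ((2 * t + 2) * (t + 1)) := by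
      apply mul_le_mul_of_nonneg_left _ hρ0
      calc (om G D : ℝ) = (om G D : ℝ) ^ 1 := (pow_one _).symm
        _ ≤ _ := pow_le_pow_right₀ hx1 (by nlinarith)
    have h3 : 8 * q * (om G D : ℝ) < ρ * (om G D : ℝ) := mul_lt_mul_of_pos_right hρ8 (by linarith)
    linarith
  have hμ4 : 4 ≤ μ D := by nlinarith
  -- minimal B with measure at least μ D / 4
  obtain ⟨B, hB, hmin⟩ := Finset.exists_min_image
    (D.powerset.filter (fun B => μ D / 4 ≤ μ B)) Finset.card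
    ⟨D, Finset.mem_filter.mpr ⟨Finset.mem_powerset.mpr (Finset.Subset.refl _), by linarith⟩⟩
  rw [Finset.mem_filter, Finset.mem_powerset] at hB
  have hBne : B.Nonempty := h.nonempty (by linarith [hB.2])
  obtain ⟨b, hb⟩ := hBne
  have h2 : μ (B.erase b) < μ D / 4 := by
    by_contra hcon
    push Not at hcon
    have h3 := hmin (B.erase b) (Finset.mem_filter.mpr ⟨Finset.mem_powerset.mpr
      ((Finset.erase_subset _ _).trans hB.1), hcon⟩)
    have h4 := Finset.card_erase_lt_of_mem hb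
    omega
  have h3 : μ B ≤ μ (B.erase b) + μ {b} := by
    apply h.le_add
    intro x hx
    rw [Finset.mem_union, Finset.mem_erase, Finset.mem_singleton]
    by_cases hxb : x = b
    · exact Or.inr hxb
    · exact Or.inl ⟨hxb, hx⟩
  have hBle : μ B ≤ μ D / 4 + 1 := by linarith [h1 b]
  have hcov : D ⊆ (D \ B) ∪ B := by
    intro x hx
    rw [Finset.mem_union, Finset.mem_sdiff]
    by_cases hxB : x ∈ B
    · exact Or.inr hxB
    · exact Or.inl ⟨hx, hxB⟩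
  have hN : μ D / 2 ≤ μ (D \ B) := by
    have := h.le_add hcov
    linarith
  have hδ : 1 / (2 * (om G D : ℝ) ^ 2) ≤ 1 / 2 := by
    apply one_div_le_one_div_of_le (by norm_num)
    nlinarith
  have hN' : 1 / (2 * (om G D : ℝ) ^ 2) * μ D ≤ μ (D \ B) := by nlinarith
  have hg : (2 * t + 2) * (t + 1) = (2 * t + 2) * t + (2 * t + 2) := by ring
  rw [hg] at hext hρD
  have hg1 : 1 ≤ (2 * t + 2) * t := by nlinarith
  obtain ⟨D', hD'N, B', hB'B, hD'ne, hext', hD'pos, hmain, hbal', hT1, hT2⟩ :=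
    step G h (W := om G D) hg1 (by omega) (by omega) hext hpos hW1 le_rfl
      Finset.sdiff_subset hB.1 hcov (δ := 1 / (2 * (om G D : ℝ) ^ 2)) (by positivity) hN' hB.2
  refine ⟨D', B', by simpa using hext', hD'pos, om_mono G (hD'N.trans Finset.sdiff_subset), ?_, ?_,
    hbal', ?_, ?_, ?_⟩
  · rw [Finset.disjoint_left]
    intro x hx hx'
    exact (Finset.mem_sdiff.mp (hD'N hx')).2 (hB'B hx)
  · intro b' _
    exact Tail.zero G b' D'
  · have h4 : 8 * (om G D : ℝ) * q < 8 * (om G D : ℝ) * μ B' := lt_of_lt_of_le hbig hmain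
    exact lt_of_mul_lt_mul_left h4 (by positivity)
  · have h3 := mul_le_mul_of_nonneg_left hT1 (show (0 : ℝ) ≤ 2 * (om G D : ℝ) ^ 2 by positivity)
    have h4 : 2 * (om G D : ℝ) ^ 2 * (1 / (2 * (om G D : ℝ) ^ 2) * (om G D : ℝ) ^ (2 * t + 2)) =
        (om G D : ℝ) ^ (2 * t + 2) := by
      field_simp
    rw [h4] at h3
    rw [zero_add, pow_one]
    linarith
  · -- J2
    rw [Nat.sub_zero, zero_add, pow_one]
    have hx0 : (0 : ℝ) < (om G D : ℝ) := by linarith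
    have hm1 : (1 : ℝ) ≤ (om G D' : ℝ) := by exact_mod_cast om_pos G hD'ne
    set x : ℝ := (om G D : ℝ) with hx
    set y : ℝ := (om G D' : ℝ) with hy
    have h5 : μ D * y ^ ((2 * t + 2) * t) ≤ 2 * x ^ 2 * (μ D' * x ^ ((2 * t + 2) * t)) := by
      have h6 := mul_le_mul_of_nonneg_left hT2 (show (0 : ℝ) ≤ 2 * x ^ 2 by positivity)
      have h7 : 2 * x ^ 2 * (1 / (2 * x ^ 2) * μ D * y ^ ((2 * t + 2) * t)) =
          μ D * y ^ ((2 * t + 2) * t) := by
        field_simp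
      rwa [h7] at h6
    have h6 : ρ * x ^ ((2 * t + 2) * t + (2 * t + 2)) * y ^ ((2 * t + 2) * t) ≤
        2 * x ^ 2 * (μ D' * x ^ ((2 * t + 2) * t)) :=
      (mul_le_mul_of_nonneg_right hρD (by positivity)).trans h5
    have h7 : (ρ * y ^ ((2 * t + 2) * t)) * x ^ ((2 * t + 2) * t + (2 * t + 2)) ≤
        (μ D' * 2 ^ (t + 1)) * x ^ ((2 * t + 2) * t + (2 * t + 2)) := by
      calc (ρ * y ^ ((2 * t + 2) * t)) * x ^ ((2 * t + 2) * t + (2 * t + 2)) =
          ρ * x ^ ((2 * t + 2) * t + (2 * t + 2)) * y ^ ((2 * t + 2) * t) := by ring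
        _ ≤ 2 * x ^ 2 * (μ D' * x ^ ((2 * t + 2) * t)) := h6
        _ = (μ D' * 2) * (x ^ ((2 * t + 2) * t) * x ^ 2) := by ring
        _ ≤ (μ D' * 2 ^ (t + 1)) * (x ^ ((2 * t + 2) * t) * x ^ (2 * t + 2)) := by
            apply mul_le_mul
            · apply mul_le_mul_of_nonneg_left _ hD'pos.le
              calc (2 : ℝ) = 2 ^ 1 := (pow_one _).symm
                _ ≤ 2 ^ (t + 1) := pow_le_pow_right₀ (by norm_num) (by omega)
            · apply mul_le_mul_of_nonneg_left _ (by positivity)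
              exact pow_le_pow_right₀ hx1 (by omega)
            · positivity
            · positivity
        _ = _ := by rw [pow_add x ((2 * t + 2) * t) (2 * t + 2)]
    exact le_of_mul_le_mul_right h7 (by positivity)

/-- **Main theorem, abstract form.** -/
theorem main (h : IsMu μ) (h1 : ∀ v, μ {v} ≤ 1) {t : ℕ} (ht : 1 ≤ t) {q : ℝ} (hq : 1 ≤ q)
    (hno : NoPair G μ q) (hfree : IsEmpty (SimpleGraph.pathGraph t ↪g G)) :
    μ Finset.univ ≤ 8 * ((2 : ℝ) ^ (t + 1)) ^ t * q * (om G Finset.univ : ℝ) ^ ((2 * t + 2) * (t + 1)) := by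
  by_contra hcon
  push Not at hcon
  have hunivpos : 0 < μ Finset.univ := lt_of_le_of_lt (by positivity) hcon
  obtain ⟨D, _, hDne, hext, hcmp⟩ := exists_extr G h ((2 * t + 2) * (t + 1)) (h.nonempty hunivpos)
  have hω1 : (1 : ℝ) ≤ (om G Finset.univ : ℝ) := by
    exact_mod_cast om_pos G (h.nonempty hunivpos)
  have hx1 : (1 : ℝ) ≤ (om G D : ℝ) := by exact_mod_cast om_pos G hDne
  set ρ : ℝ := μ Finset.univ / (om G Finset.univ : ℝ) ^ ((2 * t + 2) * (t + 1)) with hρdef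
  have hρ : 8 * ((2 : ℝ) ^ (t + 1)) ^ t * q < ρ := by
    rw [hρdef, lt_div_iff₀ (by positivity)]
    exact hcon
  have hρ0 : 0 < ρ := by
    have : 0 ≤ 8 * ((2 : ℝ) ^ (t + 1)) ^ t * q := by positivity
    linarith
  have hρD : ρ * (om G D : ℝ) ^ ((2 * t + 2) * (t + 1)) ≤ μ D := by
    rw [hρdef, div_mul_eq_mul_div, div_le_iff₀ (by positivity)]
    exact hcmp
  have hpos : 0 < μ D := lt_of_lt_of_le (by positivity) hρD
  have hall : ∀ i, i + 1 ≤ t → Lev G μ t (om G D) ρ q i := by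
    intro i
    induction i with
    | zero => intro _; exact lev_zero G h h1 ht hq hext hpos hρ hρD
    | succ i ih =>
      intro hi
      exact lev_succ G h (om_pos G hDne) (by linarith) hno hρ (by omega) (ih (by omega))
  obtain ⟨D', B', _, _, _, _, htail, _, hqB, _, _⟩ := hall (t - 1) (by omega)
  have hBne : B'.Nonempty := h.nonempty (by linarith)
  obtain ⟨b, hb⟩ := hBne
  obtain ⟨φ⟩ := (htail b hb).embedding
  rw [Nat.sub_add_cancel ht] at φ
  exact hfree.false φ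

end Pool.Agent.Helper20.Dense
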