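import Mathlib
import Pool.Agent.Helper20.Dense.Main

open Finset
open scoped Classical

namespace Pool.Agent.Helper20.Dense

section Chi

variable {V : Type*} [Fintype V] [DecidableEq V] (G : SimpleGraph V)

/-- `X` has a proper colouring with the colours `0, ..., n - 1` -/
def IsCol (X : Finset V) (n : ℕ) : Prop :=
  ∃ c : V → ℕ, (∀ x ∈ X, c x < n) ∧ ∀ x ∈ X, ∀ y ∈ X, G.Adj x y → c x ≠ c y

/-- the chromatic number of the subgraph induced on `X` -/
noncomputable def chi (X : Finset V) : ℕ := sInf {n | IsCol G X n}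

lemma exists_isCol (X : Finset V) : ∃ n, IsCol G X n := by
  refine ⟨Fintype.card V, fun x => (Fintype.equivFin V x).val, fun x _ => (Fintype.equivFin V x).isLt,
    fun x _ y _ hxy heq => ?_⟩
  exact hxy.ne ((Fintype.equivFin V).injective (Fin.ext heq))

lemma isCol_chi (X : Finset V) : IsCol G X (chi G X) :=
  Nat.sInf_mem (s := {n | IsCol G X n}) (exists_isCol G X)

lemma IsCol.mono {X : Finset V} {n m : ℕ} (h : IsCol G X n) (hnm : n ≤ m) : IsCol G X m := by
  obtain ⟨c, h1, h2⟩ := h
  exact ⟨c, fun x hx => lt_of_lt_of_le (h1 x hx) hnm, h2⟩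

lemma chi_le_iff {X : Finset V} {n : ℕ} : chi G X ≤ n ↔ IsCol G X n := by
  constructor
  · intro h
    exact (isCol_chi G X).mono G h
  · intro h
    exact Nat.sInf_le h

lemma isCol_iff {X : Finset V} {n : ℕ} :
    IsCol G X n ↔ (G.induce (X : Set V)).Colorable n := by
  constructor
  · rintro ⟨c, h1, h2⟩
    refine ⟨SimpleGraph.Coloring.mk (fun x => (⟨c x.1, h1 x.1 x.2⟩ : Fin n)) ?_⟩
    intro x y hxy heq
    exact h2 x.1 x.2 y.1 y.2 hxy (congrArg Fin.val heq)
  · rintro ⟨c⟩
    refine ⟨fun x => if hx : x ∈ X then (c ⟨x, hx⟩).val else 0, ?_, ?_⟩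
    · intro x hx
      simp only [hx, dif_pos]
      exact (c ⟨x, hx⟩).isLt
    · intro x hx y hy hxy heq
      simp only [hx, hy, dif_pos] at heq
      have hxy' : (G.induce (X : Set V)).Adj ⟨x, hx⟩ ⟨y, hy⟩ := hxy
      exact c.valid hxy' (Fin.ext heq)

lemma chi_empty : chi G ∅ = 0 := by
  have : IsCol G ∅ 0 := ⟨fun _ => 0, by simp, by simp⟩
  exact Nat.le_zero.mp ((chi_le_iff G).mpr this)

lemma chi_mono {X Y : Finset V} (h : X ⊆ Y) : chi G X ≤ chi G Y := by
  rw [chi_le_iff]
  obtain ⟨c, h1, h2⟩ := isCol_chi G Y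
  exact ⟨c, fun x hx => h1 x (h hx), fun x hx y hy => h2 x (h hx) y (h hy)⟩

lemma chi_union (X Y : Finset V) : chi G (X ∪ Y) ≤ chi G X + chi G Y := by
  rw [chi_le_iff]
  obtain ⟨c, h1, h2⟩ := isCol_chi G X
  obtain ⟨d, h3, h4⟩ := isCol_chi G Y
  refine ⟨fun x => if x ∈ X then c x else chi G X + d x, ?_, ?_⟩
  · intro x hx
    by_cases hxX : x ∈ X
    · simp only [hxX, if_true]
      have := h1 x hxX
      omega
    · have hxY : x ∈ Y := (Finset.mem_union.mp hx).resolve_left hxX
      simp only [hxX, if_false]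
      have := h3 x hxY
      omega
  · intro x hx y hy hxy
    by_cases hxX : x ∈ X <;> by_cases hyX : y ∈ X
    · simp only [hxX, hyX, if_true]
      exact h2 x hxX y hyX hxy
    · simp only [hxX, hyX, if_true, if_false]
      have := h1 x hxX
      omega
    · simp only [hxX, hyX, if_true, if_false]
      have := h1 y hyX
      omega
    · have hxY : x ∈ Y := (Finset.mem_union.mp hx).resolve_left hxX
      have hyY : y ∈ Y := (Finset.mem_union.mp hy).resolve_left hyX
      simp only [hxX, hyX, if_false]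
      have := h4 x hxY y hyY hxy
      omega

lemma chi_union_anti {X Y : Finset V} (h : ∀ x ∈ X, ∀ y ∈ Y, ¬ G.Adj x y) (n : ℕ)
    (hX : chi G X ≤ n) (hY : chi G Y ≤ n) : chi G (X ∪ Y) ≤ n := by
  rw [chi_le_iff] at hX hY ⊢
  obtain ⟨c, h1, h2⟩ := hX
  obtain ⟨d, h3, h4⟩ := hY
  refine ⟨fun x => if x ∈ X then c x else d x, ?_, ?_⟩
  · intro x hx
    by_cases hxX : x ∈ X
    · simp only [hxX, if_true]
      exact h1 x hxX
    · have hxY : x ∈ Y := (Finset.mem_union.mp hx).resolve_left hxX
      simp only [hxX, if_false]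
      exact h3 x hxY
  · intro x hx y hy hxy
    by_cases hxX : x ∈ X <;> by_cases hyX : y ∈ X
    · simp only [hxX, hyX, if_true]
      exact h2 x hxX y hyX hxy
    · have hyY : y ∈ Y := (Finset.mem_union.mp hy).resolve_left hyX
      exact absurd hxy (h x hxX y hyY)
    · have hxY : x ∈ Y := (Finset.mem_union.mp hx).resolve_left hxX
      exact absurd hxy.symm (h y hyX x hxY)
    · have hxY : x ∈ Y := (Finset.mem_union.mp hx).resolve_left hxX
      have hyY : y ∈ Y := (Finset.mem_union.mp hy).resolve_left hyX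
      simp only [hxX, hyX, if_false]
      exact h4 x hxY y hyY hxy

lemma chi_singleton_le (v : V) : chi G {v} ≤ 1 := by
  rw [chi_le_iff]
  refine ⟨fun _ => 0, by simp, ?_⟩
  intro x hx y hy hxy
  rw [Finset.mem_singleton] at hx hy
  rw [hx, hy] at hxy
  exact absurd rfl hxy.ne

lemma chi_le_card (X : Finset V) : chi G X ≤ X.card := by
  induction X using Finset.induction_on with
  | empty => simp [chi_empty]
  | insert a s ha ih =>
    rw [Finset.card_insert_of_notMem ha, Finset.insert_eq]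
    have h1 := chi_union G {a} s
    have h2 := chi_singleton_le G a
    omega

lemma chi_isMu : IsMu (fun X => (chi G X : ℝ)) where
  empty := by simp [chi_empty]
  mono X Y h := by exact_mod_cast chi_mono G h
  sub X Y := by exact_mod_cast chi_union G X Y

lemma chi_biUnion_le {ι : Type*} [DecidableEq ι] (K : Finset ι)
    (f : ι → Finset V) : chi G (K.biUnion f) ≤ ∑ i ∈ K, chi G (f i) := by
  have := (chi_isMu G).biUnion_le K f
  exact_mod_cast this

lemma nonempty_of_chi_pos {X : Finset V} (h : 0 < chi G X) : X.Nonempty := by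
  rw [Finset.nonempty_iff_ne_empty]
  rintro rfl
  rw [chi_empty] at h
  omega

/-- a minimal set with large chromatic number inside a given one -/
lemma exists_minimal {X : Finset V} {K : ℕ} (h : K ≤ chi G X) :
    ∃ Y ⊆ X, K ≤ chi G Y ∧ ∀ Z ⊂ Y, chi G Z < K := by
  obtain ⟨Y, hY, hmin⟩ := Finset.exists_min_image (X.powerset.filter (fun Y => K ≤ chi G Y))
    Finset.card ⟨X, Finset.mem_filter.mpr ⟨Finset.mem_powerset.mpr (Finset.Subset.refl _), h⟩⟩
  rw [Finset.mem_filter, Finset.mem_powerset] at hY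
  refine ⟨Y, hY.1, hY.2, fun Z hZ => ?_⟩
  by_contra hcon
  push Not at hcon
  have h1 := hmin Z (Finset.mem_filter.mpr ⟨Finset.mem_powerset.mpr (hZ.subset.trans hY.1), hcon⟩)
  have h2 := Finset.card_lt_card hZ
  omega

/-- `b` can be reached from `a` by a walk all of whose vertices after `a` are in `X` -/
def Reach (X : Finset V) (a b : V) : Prop :=
  Relation.ReflTransGen (fun x y => G.Adj x y ∧ y ∈ X) a b

lemma Reach.mono {X Y : Finset V} (h : X ⊆ Y) {a b : V} (hr : Reach G X a b) : Reach G Y a b := by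
  induction hr with
  | refl => exact Relation.ReflTransGen.refl
  | tail _ hcb ih => exact ih.tail ⟨hcb.1, h hcb.2⟩

/-- connected sets -/
def Conn (X : Finset V) : Prop := ∀ a ∈ X, ∀ b ∈ X, Reach G X a b

lemma conn_of_minimal {Y : Finset V} {K : ℕ} (hK : K ≤ chi G Y) (hmin : ∀ Z ⊂ Y, chi G Z < K) :
    Conn G Y := by
  intro a ha b hb
  by_contra hcon
  set A := Y.filter (fun z => Reach G Y a z) with hA
  set B := Y.filter (fun z => ¬ Reach G Y a z) with hB
  have hAB : Y = A ∪ B := by
    rw [hA, hB, Finset.filter_union_filter_not_eq]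
  have haA : a ∈ A := Finset.mem_filter.mpr ⟨ha, Relation.ReflTransGen.refl⟩
  have hbB : b ∈ B := Finset.mem_filter.mpr ⟨hb, hcon⟩
  have hAY : A ⊂ Y := by
    refine (Finset.filter_subset _ _).ssubset_of_ne ?_
    intro heq
    have : b ∈ Y.filter (fun z => Reach G Y a z) := by rw [heq]; exact hb
    exact hcon (Finset.mem_filter.mp this).2
  have hBY : B ⊂ Y := by
    refine (Finset.filter_subset _ _).ssubset_of_ne ?_
    intro heq
    have : a ∈ Y.filter (fun z => ¬ Reach G Y a z) := by rw [heq]; exact ha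
    exact (Finset.mem_filter.mp this).2 Relation.ReflTransGen.refl
  have hanti : ∀ x ∈ A, ∀ y ∈ B, ¬ G.Adj x y := by
    intro x hx y hy hxy
    rw [hA, Finset.mem_filter] at hx
    rw [hB, Finset.mem_filter] at hy
    exact hy.2 (hx.2.tail ⟨hxy, hy.1⟩)
  have h1 := hmin A hAY
  have h2 := hmin B hBY
  have h3 := chi_union_anti G hanti (K - 1) (by omega) (by omega)
  rw [← hAB] at h3
  omega

/-- non-neighbours of `v` in `X` -/
noncomputable def non (v : V) (X : Finset V) : Finset V := X.filter (fun x => x ≠ v ∧ ¬ G.Adj v x)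

lemma mem_non {v x : V} {X : Finset V} : x ∈ non G v X ↔ x ∈ X ∧ x ≠ v ∧ ¬ G.Adj v x := by
  unfold non
  rw [Finset.mem_filter]

lemma non_subset (v : V) (X : Finset V) : non G v X ⊆ X := Finset.filter_subset _ _

lemma reach_step {X : Finset V} {a b : V} (h : Reach G X a b) :
    b = a ∨ ∃ u, G.Adj a u ∧ u ∈ X ∧ Reach G (non G a X) u b := by
  induction h with
  | refl => exact Or.inl rfl
  | @tail c b _ hcb ih =>
    by_cases hba : b = a
    · exact Or.inl hba
    right
    by_cases hadj : G.Adj a b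
    · exact ⟨b, hadj, hcb.2, Relation.ReflTransGen.refl⟩
    rcases ih with rfl | ⟨u, h1, h2, h3⟩
    · exact absurd hcb.1 hadj
    · exact ⟨u, h1, h2, h3.tail ⟨hcb.1, (mem_non G).mpr ⟨hcb.2, hba, hadj⟩⟩⟩

/-- one step of the path argument -/
lemma walk_step {i : ℕ} {v : V} {X Y : Finset V} {K : ℕ} (htail : Tail G i v X) (hYX : Y ⊆ X)
    (hlink : ∀ y ∈ Y, Reach G X v y) (hK1 : 1 ≤ K) (hK : K ≤ chi G (non G v Y)) :
    ∃ u X' Y', Tail G (i + 1) u X' ∧ X' ⊆ X ∧ Y' ⊆ X' ∧ (∀ y ∈ Y', Reach G X' u y) ∧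
      K ≤ chi G Y' := by
  obtain ⟨Y', hY'Y, hKY', hmin⟩ := exists_minimal G hK
  have hconn := conn_of_minimal G hKY' hmin
  obtain ⟨y0, hy0⟩ := nonempty_of_chi_pos G (show 0 < chi G Y' by omega)
  have hy0' := (mem_non G).mp (hY'Y hy0)
  have hsub : Y' ⊆ non G v X := by
    intro y hy
    have := (mem_non G).mp (hY'Y hy)
    exact (mem_non G).mpr ⟨hYX this.1, this.2⟩
  rcases reach_step G (hlink y0 hy0'.1) with h1 | ⟨u, hvu, huX, hr⟩
  · exact absurd h1 hy0'.2.1
  · refine ⟨u, non G v X, Y', ?_, non_subset G v X, hsub, ?_, hKY'⟩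
    · refine htail.step G huX hvu (non_subset G v X) (fun d hd => ?_)
      have := (mem_non G).mp hd
      exact ⟨this.2.1.symm, this.2.2⟩
    · intro y hy
      exact hr.trans ((hconn y0 hy0 y hy).mono G hsub)

lemma chi_non_ge {v : V} {X Y : Finset V} {q : ℕ} (hYX : Y ⊆ X)
    (hq : chi G (X.filter (fun x => G.Adj v x)) ≤ q) : chi G Y ≤ chi G (non G v Y) + (q + 1) := by
  have h1 : Y ⊆ non G v Y ∪ (X.filter (fun x => G.Adj v x) ∪ {v}) := by
    intro y hy
    rw [Finset.mem_union, Finset.mem_union, mem_non, Finset.mem_filter, Finset.mem_singleton]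
    by_cases h2 : y = v
    · exact Or.inr (Or.inr h2)
    · by_cases h3 : G.Adj v y
      · exact Or.inr (Or.inl ⟨hYX hy, h3⟩)
      · exact Or.inl ⟨hy, h2, h3⟩
  have h2 := chi_mono G h1
  have h3 := chi_union G (non G v Y) (X.filter (fun x => G.Adj v x) ∪ {v})
  have h4 := chi_union G (X.filter (fun x => G.Adj v x)) {v}
  have h5 := chi_singleton_le G v
  omega

/-- The path argument: if from depth `i0` on the neighbourhoods in the remaining region have
chromatic number at most `q`, a linked set has bounded chromatic number. -/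
lemma gy {t : ℕ} (hfree : IsEmpty (SimpleGraph.pathGraph t ↪g G)) (i0 q : ℕ)
    (H : ∀ i u X, i0 ≤ i → Tail G i u X → chi G (X.filter (fun x => G.Adj u x)) ≤ q) :
    ∀ (r i : ℕ), i + r = t - 1 → 1 ≤ t → i0 ≤ i → ∀ v X Y, Tail G i v X → Y ⊆ X →
      (∀ y ∈ Y, Reach G X v y) → chi G Y ≤ r * (q + 1) := by
  intro r
  induction r with
  | zero =>
    intro i hi ht _ v X Y htail _ _
    exfalso
    obtain ⟨φ⟩ := htail.embedding
    rw [show i + 1 = t by omega] at φ
    exact hfree.false φ
  | succ r ih =>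
    intro i hi ht hi0 v X Y htail hYX hlink
    by_contra hcon
    push Not at hcon
    have h1 := chi_non_ge G hYX (H i v X hi0 htail)
    have h2 : r * (q + 1) + 1 ≤ chi G (non G v Y) := by
      have : (r + 1) * (q + 1) = r * (q + 1) + (q + 1) := by ring
      omega
    obtain ⟨u, X', Y', ht', _, hY', hl', hK'⟩ := walk_step G htail hYX hlink (by omega) h2
    have h3 := ih (i + 1) (by omega) ht (by omega) u X' Y' ht' hY' hl'
    omega

end Chi

end Pool.Agent.Helper20.Dense
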