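import Mathlib
import Pool.Agent.Helper20.Dense.Chi

open Finset
open scoped Classical

namespace Pool.Agent.Helper20.Dense

section Quad

variable {V : Type*} [Fintype V] [DecidableEq V] (G : SimpleGraph V)

/-- Every connected set anticomplete to `v` is almost complete to each of the neighbours of `v`
attached to it. -/
def Almost (q' : ℕ) : Prop :=
  ∀ (v : V) (M : Finset V), (∀ m ∈ M, m ≠ v ∧ ¬ G.Adj v m) → Conn G M →
    ∀ s, G.Adj v s → (∃ m ∈ M, G.Adj s m) → chi G (M.filter (fun x => ¬ G.Adj s x)) ≤ q'

/-- the component of `x` in the set of non-neighbours of `v` in `X` -/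
noncomputable def cmp (X : Finset V) (v x : V) : Finset V :=
  (non G v X).filter (fun z => Reach G (non G v X) x z)

lemma Reach.symm_of_mem {X : Finset V} {a b : V} (ha : a ∈ X) (h : Reach G X a b) :
    Reach G X b a := by
  induction h with
  | refl => exact Relation.ReflTransGen.refl
  | @tail c b hac hcb ih =>
    have hc : c ∈ X := by
      rcases hac.cases_tail with h1 | ⟨d, _, hd⟩
      · rw [h1]; exact ha
      · exact hd.2
    exact Relation.ReflTransGen.head ⟨hcb.1.symm, hc⟩ ih

lemma reach_mem {X : Finset V} {a b : V} (ha : a ∈ X) (h : Reach G X a b) : b ∈ X := by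
  rcases h.cases_tail with h1 | ⟨d, _, hd⟩
  · rw [h1]; exact ha
  · exact hd.2

/-- walks stay in the component -/
lemma reach_in_filter {X : Finset V} {a b : V} (h : Reach G X a b) :
    Reach G (X.filter (fun z => Reach G X a z)) a b := by
  induction h with
  | refl => exact Relation.ReflTransGen.refl
  | @tail c b hac hcb ih =>
    exact ih.tail ⟨hcb.1, Finset.mem_filter.mpr ⟨hcb.2, hac.tail hcb⟩⟩

lemma conn_cmp {X : Finset V} {v x : V} (hx : x ∈ non G v X) : Conn G (cmp G X v x) := by
  intro a ha b hb
  unfold cmp at *
  have h1 := (Finset.mem_filter.mp ha).2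
  have h2 := (Finset.mem_filter.mp hb).2
  have h3 := reach_in_filter G h1
  have h4 := reach_in_filter G h2
  have hx' : x ∈ (non G v X).filter (fun z => Reach G (non G v X) x z) :=
    Finset.mem_filter.mpr ⟨hx, Relation.ReflTransGen.refl⟩
  exact (h3.symm_of_mem G hx').trans h4

lemma cmp_subset {X : Finset V} {v x : V} : cmp G X v x ⊆ X :=
  (Finset.filter_subset _ _).trans (non_subset G v X)

/-- `Almost` implies a quadratic bound. -/
theorem quad {q' : ℕ} (hA : Almost G q') :
    ∀ (N : ℕ) (X : Finset V), X.card ≤ N → chi G X ≤ (q' + 1) * (om G X) ^ 2 := by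
  intro N
  induction N with
  | zero =>
    intro X hX
    rw [Finset.card_eq_zero.mp (Nat.le_zero.mp hX), chi_empty]
    exact Nat.zero_le _
  | succ N ih =>
    intro X hX
    by_cases hXe : X = ∅
    · rw [hXe, chi_empty]
      exact Nat.zero_le _
    by_cases hconn : Conn G X
    · by_cases hcl : ∀ v ∈ X, non G v X = ∅
      · -- X is a clique
        have h1 : G.IsClique (X : Set V) := by
          intro x hx y hy hxy
          by_contra hcon
          have : y ∈ non G x X := (mem_non G).mpr ⟨hy, hxy.symm, hcon⟩
          rw [hcl x hx] at this
          exact absurd this (Finset.notMem_empty _)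
        have h2 := card_le_om G (Finset.Subset.refl X) h1
        have h3 := chi_le_card G X
        have h4 : om G X ≤ (om G X) ^ 2 := by
          rcases Nat.eq_zero_or_pos (om G X) with h | h
          · rw [h]; simp
          · nlinarith
        nlinarith
      · -- choose the largest component
        push Not at hcl
        obtain ⟨v0, hv0, hne0⟩ := hcl
        obtain ⟨x0, hx0⟩ := hne0
        obtain ⟨⟨v, x⟩, hvx, hmax⟩ := Finset.exists_max_image
          ((X ×ˢ X).filter (fun p => p.2 ∈ non G p.1 X)) (fun p => (cmp G X p.1 p.2).card)
          ⟨(v0, x0), Finset.mem_filter.mpr ⟨Finset.mem_product.mpr ⟨hv0, non_subset G _ _ hx0⟩, hx0⟩⟩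
        rw [Finset.mem_filter, Finset.mem_product] at hvx
        simp only at hvx hmax
        obtain ⟨⟨hvX, hxX⟩, hxv⟩ := hvx
        set M := cmp G X v x with hM
        have hMX : M ⊆ X := cmp_subset G
        have hxM : x ∈ M := Finset.mem_filter.mpr ⟨hxv, Relation.ReflTransGen.refl⟩
        have hMconn : Conn G M := conn_cmp G hxv
        have hvM : ∀ m ∈ M, m ≠ v ∧ ¬ G.Adj v m := by
          intro m hm
          exact ((mem_non G).mp (Finset.mem_filter.mp hm).1).2
        set S := (X \ M).filter (fun s => ∃ m ∈ M, G.Adj s m) with hS
        set Y := (X \ M).filter (fun s => ¬ ∃ m ∈ M, G.Adj s m) with hY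
        have hXSY : X = S ∪ (M ∪ Y) := by
          ext z
          simp only [hS, hY, Finset.mem_union, Finset.mem_filter, Finset.mem_sdiff]
          constructor
          · intro hz
            by_cases hzM : z ∈ M
            · exact Or.inr (Or.inl hzM)
            · by_cases hzS : ∃ m ∈ M, G.Adj z m
              · exact Or.inl ⟨⟨hz, hzM⟩, hzS⟩
              · exact Or.inr (Or.inr ⟨⟨hz, hzM⟩, hzS⟩)
          · rintro (h | h | h)
            · exact h.1.1
            · exact hMX h
            · exact h.1.1
        have hvY : v ∈ Y := by
          rw [hY, Finset.mem_filter, Finset.mem_sdiff]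
          refine ⟨⟨hvX, fun h => (hvM v h).1 rfl⟩, ?_⟩
          rintro ⟨m, hm, hvm⟩
          exact (hvM m hm).2 hvm
        -- Y is complete to S
        have hYS : ∀ y ∈ Y, ∀ s ∈ S, G.Adj y s := by
          intro y hy s hs
          by_contra hcon
          rw [hY, Finset.mem_filter, Finset.mem_sdiff] at hy
          rw [hS, Finset.mem_filter, Finset.mem_sdiff] at hs
          obtain ⟨m, hm, hsm⟩ := hs.2
          have hMy : M ⊆ non G y X := by
            intro z hz
            refine (mem_non G).mpr ⟨hMX hz, ?_, ?_⟩
            · rintro rfl
              exact hy.1.2 hz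
            · intro hyz
              exact hy.2 ⟨z, hz, hyz⟩
          have hsy : s ∈ non G y X := by
            refine (mem_non G).mpr ⟨hs.1.1, ?_, hcon⟩
            rintro rfl
            exact hy.2 hs.2
          have hsub : insert s M ⊆ cmp G X y m := by
            intro z hz
            rw [Finset.mem_insert] at hz
            rcases hz with rfl | hz
            · exact Finset.mem_filter.mpr ⟨hsy, Relation.ReflTransGen.single ⟨hsm.symm, hsy⟩⟩
            · exact Finset.mem_filter.mpr ⟨hMy hz, (hMconn m hm z hz).mono G hMy⟩
          have h1 := Finset.card_le_card hsub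
          rw [Finset.card_insert_of_notMem hs.1.2] at h1
          have h2 := hmax (y, m) (Finset.mem_filter.mpr ⟨Finset.mem_product.mpr ⟨hy.1.1, hMX hm⟩,
            hMy hm⟩)
          simp only at h2
          omega
        -- S is nonempty
        have hSne : S.Nonempty := by
          by_contra hcon
          rw [Finset.not_nonempty_iff_eq_empty] at hcon
          have h1 : ∀ z, Reach G X x z → z ∈ M := by
            intro z hz
            induction hz with
            | refl => exact hxM
            | @tail c b _ hcb ih =>
              by_contra hbM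
              have : b ∈ S := by
                rw [hS, Finset.mem_filter, Finset.mem_sdiff]
                exact ⟨⟨hcb.2, hbM⟩, c, ih, hcb.1.symm⟩
              rw [hcon] at this
              exact absurd this (Finset.notMem_empty _)
          exact (hvM v (h1 v (hconn x hxX v hvX))).1 rfl
        -- clique number relations
        obtain ⟨K, hKS, hKc, hK⟩ := exists_clique G S
        obtain ⟨L, hLY, hLc, hL⟩ := exists_clique G Y
        have hclique : ∀ {P R : Finset V}, P ⊆ X → R ⊆ X → G.IsClique (P : Set V) →
            G.IsClique (R : Set V) → (∀ a ∈ P, ∀ b ∈ R, G.Adj a b) → P.card + R.card ≤ om G X := by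
          intro P R hP hR hPc hRc hPR
          have hdisj : Disjoint P R := by
            rw [Finset.disjoint_left]
            intro z hz hz'
            exact (hPR z hz z hz').ne rfl
          rw [← Finset.card_union_of_disjoint hdisj]
          apply card_le_om G (Finset.union_subset hP hR)
          rw [Finset.coe_union]
          intro a ha b hb hab
          rcases ha with ha | ha <;> rcases hb with hb | hb
          · exact hPc ha hb hab
          · exact hPR a ha b hb
          · exact (hPR b hb a ha).symm
          · exact hRc ha hb hab
        have hSX : S ⊆ X := (Finset.filter_subset _ _).trans Finset.sdiff_subset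
        have hYX : Y ⊆ X := (Finset.filter_subset _ _).trans Finset.sdiff_subset
        have hom1 : om G S + om G Y ≤ om G X := by
          rw [← hK, ← hL]
          exact hclique (hKS.trans hSX) (hLY.trans hYX) hKc hLc
            (fun a ha b hb => (hYS b (hLY hb) a (hKS ha)).symm)
        set Ms := M.filter (fun z => ∀ b ∈ K, G.Adj b z) with hMs
        obtain ⟨R, hRM, hRc, hR⟩ := exists_clique G Ms
        have hom2 : om G S + om G Ms ≤ om G X := by
          rw [← hK, ← hR]
          exact hclique (hKS.trans hSX) ((hRM.trans (Finset.filter_subset _ _)).trans hMX) hKc hRc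
            (fun a ha b hb => (Finset.mem_filter.mp (hRM hb)).2 a ha)
        have hchiM : chi G M ≤ chi G Ms + om G S * q' := by
          have h1 : M ⊆ Ms ∪ K.biUnion (fun b => M.filter (fun z => ¬ G.Adj b z)) := by
            intro z hz
            rw [Finset.mem_union]
            by_cases h2 : ∀ b ∈ K, G.Adj b z
            · exact Or.inl (Finset.mem_filter.mpr ⟨hz, h2⟩)
            · push Not at h2
              obtain ⟨b, hb, hbz⟩ := h2
              exact Or.inr (Finset.mem_biUnion.mpr ⟨b, hb, Finset.mem_filter.mpr ⟨hz, hbz⟩⟩)
          have h2 := chi_mono G h1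
          have h3 := chi_union G Ms (K.biUnion (fun b => M.filter (fun z => ¬ G.Adj b z)))
          have h4 := chi_biUnion_le G K (fun b => M.filter (fun z => ¬ G.Adj b z))
          have h5 : ∑ b ∈ K, chi G (M.filter (fun z => ¬ G.Adj b z)) ≤ K.card * q' := by
            rw [← smul_eq_mul, ← Finset.sum_const]
            refine Finset.sum_le_sum (fun b hb => ?_)
            have hbS := hKS hb
            have hbm := (Finset.mem_filter.mp hbS).2
            exact hA v M hvM hMconn b (hYS v hvY b hbS) hbm
          rw [hK] at h5
          omega
        have hMne : M.Nonempty := ⟨x, hxM⟩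
        have hcardS : S.card ≤ N := by
          have h1 : S ⊂ X := by
            refine hSX.ssubset_of_ne (fun heq => ?_)
            have : x ∈ S := by rw [heq]; exact hxX
            rw [hS, Finset.mem_filter, Finset.mem_sdiff] at this
            exact this.1.2 hxM
          have := Finset.card_lt_card h1
          omega
        have hcardY : Y.card ≤ N := by
          have h1 : Y ⊂ X := by
            refine hYX.ssubset_of_ne (fun heq => ?_)
            have : x ∈ Y := by rw [heq]; exact hxX
            rw [hY, Finset.mem_filter, Finset.mem_sdiff] at this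
            exact this.1.2 hxM
          have := Finset.card_lt_card h1
          omega
        have hcardMs : Ms.card ≤ N := by
          have h1 : Ms ⊂ X := by
            refine ((Finset.filter_subset _ _).trans hMX).ssubset_of_ne (fun heq => ?_)
            have : v ∈ M.filter (fun z => ∀ b ∈ K, G.Adj b z) := by rw [heq]; exact hvX
            exact (hvM v (Finset.mem_filter.mp this).1).1 rfl
          have := Finset.card_lt_card h1
          omega
        have ihS := ih S hcardS
        have ihY := ih Y hcardY
        have ihMs := ih Ms hcardMs
        have hanti : ∀ a ∈ M, ∀ b ∈ Y, ¬ G.Adj a b := by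
          intro a ha b hb hab
          rw [hY, Finset.mem_filter] at hb
          exact hb.2 ⟨a, ha, hab.symm⟩
        have hSpos : 1 ≤ om G S := om_pos G hSne
        have hYpos : 1 ≤ om G Y := om_pos G ⟨v, hvY⟩
        set a := om G S with ha
        set w := om G X with hw
        have haw : a + 1 ≤ w := by omega
        obtain ⟨d, hd⟩ : ∃ d, w = a + (d + 1) := ⟨w - a - 1, by omega⟩
        have hY' : om G Y ≤ d + 1 := by omega
        have hMs' : om G Ms ≤ d + 1 := by omega
        have hchiY : chi G Y ≤ (q' + 1) * (d + 1) ^ 2 :=
          ihY.trans (Nat.mul_le_mul_left _ (Nat.pow_le_pow_left hY' 2))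
        have hchiM' : chi G M ≤ (q' + 1) * (d + 1) ^ 2 + a * q' := by
          have : (q' + 1) * (om G Ms) ^ 2 ≤ (q' + 1) * (d + 1) ^ 2 :=
            Nat.mul_le_mul_left _ (Nat.pow_le_pow_left hMs' 2)
          omega
        have hMY : chi G (M ∪ Y) ≤ (q' + 1) * (d + 1) ^ 2 + a * q' :=
          chi_union_anti G hanti _ hchiM' (by omega)
        have h1 := chi_union G S (M ∪ Y)
        rw [← hXSY] at h1
        calc chi G X ≤ chi G S + chi G (M ∪ Y) := h1
          _ ≤ (q' + 1) * a ^ 2 + ((q' + 1) * (d + 1) ^ 2 + a * q') := by omega
          _ ≤ (q' + 1) * w ^ 2 := by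
              rw [hd]
              have h2 : (a + (d + 1)) ^ 2 = a ^ 2 + (d + 1) ^ 2 + 2 * a * (d + 1) := by ring
              rw [h2]
              have h3 : a * q' ≤ (q' + 1) * (2 * a * (d + 1)) := by
                calc a * q' ≤ (q' + 1) * (2 * a * 1) := by nlinarith
                  _ ≤ (q' + 1) * (2 * a * (d + 1)) := by
                    apply Nat.mul_le_mul_left
                    apply Nat.mul_le_mul_left
                    omega
              calc (q' + 1) * a ^ 2 + ((q' + 1) * (d + 1) ^ 2 + a * q') ≤
                  (q' + 1) * a ^ 2 + ((q' + 1) * (d + 1) ^ 2 + (q' + 1) * (2 * a * (d + 1))) := by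
                    omega
                _ = _ := by ring
    · -- X is not connected
      unfold Conn at hconn
      push Not at hconn
      obtain ⟨a, ha, b, hb, hab⟩ := hconn
      set A := X.filter (fun z => Reach G X a z) with hAdef
      set B := X.filter (fun z => ¬ Reach G X a z) with hBdef
      have hAB : X = A ∪ B := by
        rw [hAdef, hBdef, Finset.filter_union_filter_not_eq]
      have hanti : ∀ x ∈ A, ∀ y ∈ B, ¬ G.Adj x y := by
        intro x hx y hy hxy
        rw [hAdef, Finset.mem_filter] at hx
        rw [hBdef, Finset.mem_filter] at hy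
        exact hy.2 (hx.2.tail ⟨hxy, hy.1⟩)
      have hAX : A ⊂ X := by
        refine (Finset.filter_subset _ _).ssubset_of_ne ?_
        intro heq
        have : b ∈ X.filter (fun z => Reach G X a z) := by rw [heq]; exact hb
        exact hab (Finset.mem_filter.mp this).2
      have hBX : B ⊂ X := by
        refine (Finset.filter_subset _ _).ssubset_of_ne ?_
        intro heq
        have : a ∈ X.filter (fun z => ¬ Reach G X a z) := by rw [heq]; exact ha
        exact (Finset.mem_filter.mp this).2 Relation.ReflTransGen.refl
      have h1 := ih A (by have := Finset.card_lt_card hAX; omega)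
      have h2 := ih B (by have := Finset.card_lt_card hBX; omega)
      have h3 : (q' + 1) * (om G A) ^ 2 ≤ (q' + 1) * (om G X) ^ 2 :=
        Nat.mul_le_mul_left _ (Nat.pow_le_pow_left (om_mono G hAX.subset) 2)
      have h4 : (q' + 1) * (om G B) ^ 2 ≤ (q' + 1) * (om G X) ^ 2 :=
        Nat.mul_le_mul_left _ (Nat.pow_le_pow_left (om_mono G hBX.subset) 2)
      have h5 := chi_union_anti G hanti _ (h1.trans h3) (h2.trans h4)
      rw [← hAB] at h5
      exact h5

end Quad

end Pool.Agent.Helper20.Dense
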