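import Mathlib
import Pool.Agent.Helper20.Dense.Quad

open Finset
open scoped Classical

namespace Pool.Agent.Helper20.Dense

/-- `{P_t, F}`-free graphs are polynomially chi-bounded -/
def Poly (t : ℕ) {W : Type} (F : SimpleGraph W) : Prop :=
  ∃ C g : ℕ, ∀ (V : Type) [Fintype V] (G : SimpleGraph V),
    IsEmpty (SimpleGraph.pathGraph t ↪g G) → IsEmpty (F ↪g G) →
      G.Colorable (C * G.cliqueNum ^ g)

section

variable {V : Type} [Fintype V] (G : SimpleGraph V)

lemma isCol_univ_iff {n : ℕ} : IsCol G Finset.univ n ↔ G.Colorable n := by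
  constructor
  · rintro ⟨c, h1, h2⟩
    exact ⟨SimpleGraph.Coloring.mk (fun x => (⟨c x, h1 x (Finset.mem_univ x)⟩ : Fin n))
      (fun {x y} hxy heq => h2 x (Finset.mem_univ x) y (Finset.mem_univ y) hxy
        (congrArg Fin.val heq))⟩
  · rintro ⟨c⟩
    exact ⟨fun x => (c x).val, fun x _ => (c x).isLt, fun x _ y _ hxy heq =>
      c.valid hxy (Fin.ext heq)⟩

lemma cliqueNum_induce_le (X : Finset V) : (G.induce (X : Set V)).cliqueNum ≤ om G X := by
  obtain ⟨s, hs⟩ := (G.induce (X : Set V)).exists_isNClique_cliqueNum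
  rw [← hs.card_eq, ← Finset.card_map (Function.Embedding.subtype _)]
  apply card_le_om
  · intro x hx
    obtain ⟨y, _, rfl⟩ := Finset.mem_map.mp hx
    exact y.2
  · intro x hx y hy hxy
    obtain ⟨x', hx', rfl⟩ := Finset.mem_map.mp hx
    obtain ⟨y', hy', rfl⟩ := Finset.mem_map.mp hy
    have hne : x' ≠ y' := fun h => hxy (by rw [h])
    exact hs.isClique hx' hy' hne

lemma free_induce {t : ℕ} (hfree : IsEmpty (SimpleGraph.pathGraph t ↪g G)) (X : Finset V) :
    IsEmpty (SimpleGraph.pathGraph t ↪g G.induce (X : Set V)) :=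
  ⟨fun φ => hfree.false ((SimpleGraph.Embedding.induce (X : Set V)).comp φ)⟩

/-- a set without a copy of `F` has small chromatic number -/
lemma poly_apply {t C g : ℕ} {W : Type} {F : SimpleGraph W}
    (hF : ∀ (V : Type) [Fintype V] (G : SimpleGraph V),
      IsEmpty (SimpleGraph.pathGraph t ↪g G) → IsEmpty (F ↪g G) →
        G.Colorable (C * G.cliqueNum ^ g))
    (hfree : IsEmpty (SimpleGraph.pathGraph t ↪g G)) (X : Finset V)
    (hX : ¬ ∃ φ : F ↪g G, ∀ w, φ w ∈ X) : chi G X ≤ C * (om G X) ^ g := by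
  rw [chi_le_iff, isCol_iff]
  refine (hF _ (G.induce (X : Set V)) (free_induce G hfree X) ⟨fun φ => hX ?_⟩).mono
    (Nat.mul_le_mul_left _ (Nat.pow_le_pow_left (cliqueNum_induce_le G X) g))
  refine ⟨(SimpleGraph.Embedding.induce (X : Set V)).comp φ, fun w => ?_⟩
  exact (φ w).2

end

/-- the numerical form of the main theorem for the chromatic number -/
lemma main_chi {V : Type} [Fintype V] (G : SimpleGraph V) {t : ℕ} (ht : 1 ≤ t) {q : ℕ} (hq : 1 ≤ q)
    (hfree : IsEmpty (SimpleGraph.pathGraph t ↪g G))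
    (hno : ∀ A B : Finset V, Disjoint A B → (∀ a ∈ A, ∀ b ∈ B, ¬ G.Adj a b) →
      chi G A ≤ q ∨ chi G B ≤ q) :
    chi G Finset.univ ≤ (8 * (2 ^ (t + 1)) ^ t) * q * (om G Finset.univ) ^ ((2 * t + 2) * (t + 1)) := by
  have h := main G (chi_isMu G) (fun v => by exact_mod_cast chi_singleton_le G v) ht
    (q := (q : ℝ)) (by exact_mod_cast hq) (fun A B hAB hab => by
      rcases hno A B hAB hab with h | h
      · left; show ((chi G A : ℕ) : ℝ) ≤ (q : ℝ); exact_mod_cast h
      · right; show ((chi G B : ℕ) : ℝ) ≤ (q : ℝ); exact_mod_cast h) hfree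
  exact_mod_cast h

lemma embedding_of_zero {V : Type} (G : SimpleGraph V) :
    ¬ IsEmpty (SimpleGraph.pathGraph 0 ↪g G) := by
  intro h
  exact h.false ⟨⟨fun x => x.elim0, fun x => x.elim0⟩, fun {x} => x.elim0⟩

/-- General form of the closure under disjoint unions. -/
lemma poly_union_aux {t : ℕ} {W₁ W₂ W : Type} {F₁ : SimpleGraph W₁} {F₂ : SimpleGraph W₂}
    {F : SimpleGraph W} (h₁ : Poly t F₁) (h₂ : Poly t F₂)
    (hcomb : ∀ (V : Type) (G : SimpleGraph V) (φ₁ : F₁ ↪g G) (φ₂ : F₂ ↪g G),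
      (∀ a b, φ₁ a ≠ φ₂ b ∧ ¬ G.Adj (φ₁ a) (φ₂ b)) → Nonempty (F ↪g G)) : Poly t F := by
  obtain ⟨C₁, g₁, h₁⟩ := h₁
  obtain ⟨C₂, g₂, h₂⟩ := h₂
  refine ⟨(8 * (2 ^ (t + 1)) ^ t) * (C₁ + C₂ + 1), g₁ + g₂ + (2 * t + 2) * (t + 1), ?_⟩
  intro V _ G hfree hF
  rcases Nat.eq_zero_or_pos t with ht0 | ht
  · subst ht0
    exact absurd hfree (embedding_of_zero G)
  rw [← isCol_univ_iff, ← chi_le_iff]
  by_cases hVe : (Finset.univ : Finset V) = ∅
  · rw [hVe, chi_empty]
    exact Nat.zero_le _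
  have hω : 1 ≤ om G Finset.univ := om_pos G (Finset.nonempty_iff_ne_empty.mpr hVe)
  set ω := om G Finset.univ with hωdef
  have hmain := main_chi G ht (q := C₁ * ω ^ g₁ + C₂ * ω ^ g₂ + 1) (by omega) hfree (by
    intro A B hAB hab
    by_contra hcon
    push Not at hcon
    have hA : ∃ φ : F₁ ↪g G, ∀ w, φ w ∈ A := by
      by_contra h
      have h3 := poly_apply G h₁ hfree A h
      have h4 : C₁ * (om G A) ^ g₁ ≤ C₁ * ω ^ g₁ :=
        Nat.mul_le_mul_left _ (Nat.pow_le_pow_left (om_mono G (Finset.subset_univ A)) g₁)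
      omega
    have hB : ∃ φ : F₂ ↪g G, ∀ w, φ w ∈ B := by
      by_contra h
      have h3 := poly_apply G h₂ hfree B h
      have h4 : C₂ * (om G B) ^ g₂ ≤ C₂ * ω ^ g₂ :=
        Nat.mul_le_mul_left _ (Nat.pow_le_pow_left (om_mono G (Finset.subset_univ B)) g₂)
      omega
    obtain ⟨φ₁, hφ₁⟩ := hA
    obtain ⟨φ₂, hφ₂⟩ := hB
    obtain ⟨ψ⟩ := hcomb V G φ₁ φ₂ (fun a b => ⟨fun heq =>
      (Finset.disjoint_left.mp hAB) (hφ₁ a) (by rw [heq]; exact hφ₂ b),
      hab _ (hφ₁ a) _ (hφ₂ b)⟩)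
    exact hF.false ψ)
  have hωle : ω ≤ G.cliqueNum := om_univ_le G
  have hcl : 1 ≤ G.cliqueNum := hω.trans hωle
  set K := 8 * (2 ^ (t + 1)) ^ t with hK
  set x := G.cliqueNum with hx
  have h3 : C₁ * ω ^ g₁ + C₂ * ω ^ g₂ + 1 ≤ (C₁ + C₂ + 1) * x ^ (g₁ + g₂) := by
    have h4 : ω ^ g₁ ≤ x ^ (g₁ + g₂) :=
      (Nat.pow_le_pow_left hωle g₁).trans (Nat.pow_le_pow_right hcl (by omega))
    have h5 : ω ^ g₂ ≤ x ^ (g₁ + g₂) :=
      (Nat.pow_le_pow_left hωle g₂).trans (Nat.pow_le_pow_right hcl (by omega))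
    have h6 : 1 ≤ x ^ (g₁ + g₂) := Nat.one_le_pow _ _ hcl
    nlinarith
  calc chi G Finset.univ ≤ K * (C₁ * ω ^ g₁ + C₂ * ω ^ g₂ + 1) * ω ^ ((2 * t + 2) * (t + 1)) := hmain
    _ ≤ K * ((C₁ + C₂ + 1) * x ^ (g₁ + g₂)) * x ^ ((2 * t + 2) * (t + 1)) := by
        apply Nat.mul_le_mul
        · exact Nat.mul_le_mul_left _ h3
        · exact Nat.pow_le_pow_left hωle _
    _ = _ := by rw [pow_add]; ring

/-- the combination of two anticomplete copies -/
lemma sum_embedding {V W₁ W₂ : Type} {F₁ : SimpleGraph W₁} {F₂ : SimpleGraph W₂}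
    (G : SimpleGraph V) (φ₁ : F₁ ↪g G) (φ₂ : F₂ ↪g G)
    (h : ∀ a b, φ₁ a ≠ φ₂ b ∧ ¬ G.Adj (φ₁ a) (φ₂ b)) : Nonempty ((F₁ ⊕g F₂) ↪g G) := by
  refine ⟨⟨⟨Sum.elim φ₁ φ₂, ?_⟩, ?_⟩⟩
  · rintro (a | a) (b | b) hab
    · exact congrArg Sum.inl (φ₁.injective hab)
    · exact absurd hab (h a b).1
    · exact absurd hab.symm (h b a).1
    · exact congrArg Sum.inr (φ₂.injective hab)
  · rintro (a | a) (b | b)
    · simp
    · simp only [Function.Embedding.coeFn_mk, Sum.elim_inl, Sum.elim_inr]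
      constructor
      · intro h1
        exact absurd h1 (h a b).2
      · intro h1
        simp at h1
    · simp only [Function.Embedding.coeFn_mk, Sum.elim_inl, Sum.elim_inr]
      constructor
      · intro h1
        exact absurd h1.symm (h b a).2
      · intro h1
        simp at h1
    · simp

theorem poly_sum {t : ℕ} {W₁ W₂ : Type} {F₁ : SimpleGraph W₁} {F₂ : SimpleGraph W₂}
    (h₁ : Poly t F₁) (h₂ : Poly t F₂) : Poly t (F₁ ⊕g F₂) :=
  poly_union_aux h₁ h₂ (fun _ G φ₁ φ₂ h => sum_embedding G φ₁ φ₂ h)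

/-- The graph obtained from `F` by adding a vertex `c` adjacent to all vertices of `F` and
a path `c - b - a`. (`a = inl 0`, `b = inl 1`, `c = inl 2`.) -/
def lolli {W : Type} (F : SimpleGraph W) : SimpleGraph (Fin 3 ⊕ W) where
  Adj x y := match x, y with
    | Sum.inl i, Sum.inl j => i.val + 1 = j.val ∨ j.val + 1 = i.val
    | Sum.inl i, Sum.inr _ => i = 2
    | Sum.inr _, Sum.inl i => i = 2
    | Sum.inr a, Sum.inr b => F.Adj a b
  symm := ⟨by
    rintro (a | a) (b | b) h
    · exact h.symm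
    · exact h
    · exact h
    · exact F.adj_symm h⟩
  loopless := ⟨by
    rintro (a | a) h
    · simp only at h
      omega
    · exact F.loopless.irrefl a h⟩

lemma lolli_embedding {V W : Type} [DecidableEq V] (F : SimpleGraph W) (G : SimpleGraph V) {i : ℕ} {u : V}
    {X : Finset V} (hi : 2 ≤ i) (htail : Tail G i u X) (φ : F ↪g G)
    (hφ : ∀ w, φ w ∈ X ∧ G.Adj u (φ w)) : Nonempty (lolli F ↪g G) := by
  obtain ⟨v, hv, h1, h2⟩ := htail
  set f : Fin 3 ⊕ W → V := Sum.elim (fun j : Fin 3 => v (i - 2 + j.val)) φ with hf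
  have hu : v (i - 2 + 2) = u := by
    rw [show i - 2 + 2 = i by omega, hv]
  have hlast : ∀ j : Fin 3, ∀ w, v (i - 2 + j.val) ≠ φ w ∧
      (G.Adj (v (i - 2 + j.val)) (φ w) ↔ j = 2) := by
    intro j w
    by_cases hj : j = 2
    · subst hj
      have : v (i - 2 + (2 : Fin 3).val) = u := hu
      rw [this]
      exact ⟨(hφ w).2.ne, by simp [(hφ w).2]⟩
    · have hj' : j.val < 2 := by
        have := j.isLt
        by_contra hcon
        exact hj (Fin.ext (by simp; omega))
      have h3 := h2 (i - 2 + j.val) (by omega) (φ w) (hφ w).1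
      exact ⟨h3.1, by simp [h3.2, hj]⟩
  refine ⟨⟨⟨f, ?_⟩, ?_⟩⟩
  · rintro (a | a) (b | b) hab
    · simp only [hf, Sum.elim_inl] at hab
      by_contra hne
      have hne' : a.val ≠ b.val := fun h => hne (congrArg Sum.inl (Fin.ext h))
      have ha := a.isLt
      have hb := b.isLt
      rcases lt_or_gt_of_ne hne' with hlt | hlt
      · exact (h1 _ _ (show i - 2 + a.val < i - 2 + b.val by omega) (by omega)).1 hab
      · exact (h1 _ _ (show i - 2 + b.val < i - 2 + a.val by omega) (by omega)).1 hab.symm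
    · simp only [hf, Sum.elim_inl, Sum.elim_inr] at hab
      exact absurd hab (hlast a b).1
    · simp only [hf, Sum.elim_inl, Sum.elim_inr] at hab
      exact absurd hab.symm (hlast b a).1
    · simp only [hf, Sum.elim_inr] at hab
      exact congrArg Sum.inr (φ.injective hab)
  · rintro (a | a) (b | b)
    · simp only [Function.Embedding.coeFn_mk, hf, Sum.elim_inl, lolli]
      have ha := a.isLt
      have hb := b.isLt
      rcases lt_trichotomy a.val b.val with hlt | heq | hlt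
      · rw [(h1 _ _ (show i - 2 + a.val < i - 2 + b.val by omega) (by omega)).2]
        omega
      · rw [heq]
        constructor
        · intro h3
          exact absurd rfl h3.ne
        · intro h3
          omega
      · rw [G.adj_comm, (h1 _ _ (show i - 2 + b.val < i - 2 + a.val by omega) (by omega)).2]
        omega
    · simp only [Function.Embedding.coeFn_mk, hf, Sum.elim_inl, Sum.elim_inr, lolli]
      exact (hlast a b).2
    · simp only [Function.Embedding.coeFn_mk, hf, Sum.elim_inl, Sum.elim_inr, lolli]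
      rw [G.adj_comm]
      exact (hlast b a).2
    · simp only [Function.Embedding.coeFn_mk, hf, Sum.elim_inr, lolli]
      exact φ.map_adj_iff

/-- closure under `lolli` -/
theorem poly_lolli {t : ℕ} {W : Type} {F : SimpleGraph W} (h : Poly t F) : Poly t (lolli F) := by
  obtain ⟨C, g, hF⟩ := h
  refine ⟨t * (C + 1) + 1, g + 2, ?_⟩
  intro V _ G hfree hL
  rcases Nat.eq_zero_or_pos t with ht0 | ht
  · subst ht0
    exact absurd hfree (embedding_of_zero G)
  rw [← isCol_univ_iff, ← chi_le_iff]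
  by_cases hVe : (Finset.univ : Finset V) = ∅
  · rw [hVe, chi_empty]
    exact Nat.zero_le _
  have hω : 1 ≤ om G Finset.univ := om_pos G (Finset.nonempty_iff_ne_empty.mpr hVe)
  set ω := om G Finset.univ with hωdef
  set q := C * ω ^ g with hq
  have H : ∀ i u (X : Finset V), 2 ≤ i → Tail G i u X →
      chi G (X.filter (fun x => G.Adj u x)) ≤ q := by
    intro i u X hi htail
    have h3 := poly_apply G hF hfree (X.filter (fun x => G.Adj u x)) (by
      rintro ⟨φ, hφ⟩
      obtain ⟨ψ⟩ := lolli_embedding F G hi htail φ (fun w => Finset.mem_filter.mp (hφ w))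
      exact hL.false ψ)
    exact h3.trans (Nat.mul_le_mul_left _ (Nat.pow_le_pow_left (om_mono G (Finset.subset_univ _)) g))
  have hAlmost : Almost G (t * (q + 1)) := by
    intro v M hvM hMc s hvs hsm
    by_contra hcon
    push Not at hcon
    obtain ⟨m, hm, hsm⟩ := hsm
    have htail : Tail G 1 s M := (Tail.zero G v Finset.univ).step G (Finset.mem_univ s) hvs
      (Finset.subset_univ M) (fun d hd => ⟨(hvM d hd).1.symm, (hvM d hd).2⟩)
    have hlink : ∀ y ∈ M, Reach G M s y := by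
      intro y hy
      exact Relation.ReflTransGen.head ⟨hsm, hm⟩ (hMc m hm y hy)
    have h4 : M.filter (fun x => ¬ G.Adj s x) ⊆ non G s M ∪ {s} := by
      intro x hx
      rw [Finset.mem_filter] at hx
      rw [Finset.mem_union, mem_non, Finset.mem_singleton]
      by_cases hxs : x = s
      · exact Or.inr hxs
      · exact Or.inl ⟨hx.1, hxs, hx.2⟩
    have h5 := chi_mono G h4
    have h6 := chi_union G (non G s M) {s}
    have h7 := chi_singleton_le G s
    have h8 : t * (q + 1) ≤ chi G (non G s M) := by omega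
    obtain ⟨u, X', Y', ht', _, hY', hl', hK'⟩ := walk_step G htail (Finset.Subset.refl M) hlink
      (K := t * (q + 1)) (by nlinarith) h8
    by_cases ht3 : 3 ≤ t
    · have h9 := gy G hfree 2 q H (t - 3) 2 (by omega) ht le_rfl u X' Y' ht' hY' hl'
      have h10 : (t - 3) * (q + 1) < t * (q + 1) :=
        Nat.mul_lt_mul_of_pos_right (by omega) (by omega)
      omega
    · -- then there is already a path on three vertices
      obtain ⟨φ⟩ := ht'.embedding
      have hle : t ≤ 3 := by omega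
      have : Nonempty (SimpleGraph.pathGraph t ↪g SimpleGraph.pathGraph (1 + 1 + 1)) := by
        refine ⟨⟨Fin.castLEEmb (by omega), ?_⟩⟩
        intro a b
        simp [SimpleGraph.pathGraph_adj]
      obtain ⟨ψ⟩ := this
      exact hfree.false (φ.comp ψ)
  have hquad := quad G hAlmost (Fintype.card V) Finset.univ le_rfl
  have hωle : ω ≤ G.cliqueNum := om_univ_le G
  have hcl : 1 ≤ G.cliqueNum := hω.trans hωle
  set x := G.cliqueNum with hx
  have h3 : t * (q + 1) + 1 ≤ (t * (C + 1) + 1) * x ^ g := by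
    have h4 : ω ^ g ≤ x ^ g := Nat.pow_le_pow_left hωle g
    have h5 : 1 ≤ x ^ g := Nat.one_le_pow _ _ hcl
    have h6 : q + 1 ≤ (C + 1) * x ^ g := by
      rw [hq]
      nlinarith
    calc t * (q + 1) + 1 ≤ t * ((C + 1) * x ^ g) + x ^ g := by
          have := Nat.mul_le_mul_left t h6
          omega
      _ = _ := by ring
  calc chi G Finset.univ ≤ (t * (q + 1) + 1) * ω ^ 2 := hquad
    _ ≤ ((t * (C + 1) + 1) * x ^ g) * x ^ 2 := Nat.mul_le_mul h3 (Nat.pow_le_pow_left hωle 2)
    _ = _ := by rw [pow_add]; ring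

/-- monotonicity -/
lemma poly_mono {t : ℕ} {W W' : Type} {F : SimpleGraph W} {F' : SimpleGraph W'} (φ : F ↪g F')
    (h : Poly t F') : Poly t F := by
  obtain ⟨C, g, h⟩ := h
  exact ⟨C, g, fun V _ G h1 h2 => h V G h1 ⟨fun ψ => h2.false (ψ.comp φ)⟩⟩

end Pool.Agent.Helper20.Dense
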