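import Mathlib
import Pool.Agent.Helper20.Dense.Poly

open Finset
open scoped Classical

namespace Pool.Agent.Helper20.Dense

section

variable {W : Type} (F : SimpleGraph W)

lemma p4_embedding {a b c d : W} (hab : F.Adj a b) (hbc : F.Adj b c) (hcd : F.Adj c d)
    (hac : ¬ F.Adj a c) (had : ¬ F.Adj a d) (hbd : ¬ F.Adj b d) (hac' : a ≠ c) (had' : a ≠ d)
    (hbd' : b ≠ d) : Nonempty (SimpleGraph.pathGraph 4 ↪g F) := by
  refine ⟨⟨⟨![a, b, c, d], ?_⟩, ?_⟩⟩
  · intro i j hij
    fin_cases i <;> fin_cases j <;>
      simp_all [hab.ne, hbc.ne, hcd.ne, hab.ne.symm, hbc.ne.symm, hcd.ne.symm]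
  · intro i j
    rw [SimpleGraph.pathGraph_adj]
    fin_cases i <;> fin_cases j <;>
      simp_all [F.adj_comm]

lemma c4_embedding {a b c d : W} (hab : F.Adj a b) (hbc : F.Adj b c) (hcd : F.Adj c d)
    (hda : F.Adj d a) (hac : ¬ F.Adj a c) (hbd : ¬ F.Adj b d) (hac' : a ≠ c) (hbd' : b ≠ d) :
    Nonempty (SimpleGraph.cycleGraph 4 ↪g F) := by
  have hdec : ∀ i j : Fin 4, (SimpleGraph.cycleGraph 4).Adj i j ↔
      (i.val + 1 = j.val ∨ j.val + 1 = i.val ∨ (i.val = 0 ∧ j.val = 3) ∨
        (i.val = 3 ∧ j.val = 0)) := by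
    decide
  have hba := hab.symm
  have hcb := hbc.symm
  have hdc := hcd.symm
  have had := hda.symm
  have hca : ¬ F.Adj c a := fun h => hac h.symm
  have hdb : ¬ F.Adj d b := fun h => hbd h.symm
  refine ⟨⟨⟨![a, b, c, d], ?_⟩, ?_⟩⟩
  · intro i j hij
    have h1 := hab.ne
    have h2 := hbc.ne
    have h3 := hcd.ne
    have h4 := hda.ne
    have h1' := hab.ne.symm
    have h2' := hbc.ne.symm
    have h3' := hcd.ne.symm
    have h4' := hda.ne.symm
    have h5' := hac'.symm
    have h6' := hbd'.symm
    fin_cases i <;> fin_cases j <;> simp_all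
  · intro i j
    rw [hdec]
    fin_cases i <;> fin_cases j <;> simp_all

end

/-- Wolk's dichotomy. -/
lemma dichotomy {W : Type} [Fintype W] (F : SimpleGraph W)
    (h4 : IsEmpty (SimpleGraph.pathGraph 4 ↪g F)) (hc4 : IsEmpty (SimpleGraph.cycleGraph 4 ↪g F))
    (hne : Nonempty W) :
    (∃ w : W, ∀ x, x ≠ w → F.Adj w x) ∨
    (∃ A : Set W, (∃ x, x ∈ A) ∧ (∃ x, x ∉ A) ∧ ∀ x ∈ A, ∀ y ∉ A, ¬ F.Adj x y) := by
  obtain ⟨w, _, hmax⟩ := Finset.exists_max_image (Finset.univ : Finset W)
    (fun w => (Finset.univ.filter (fun x => F.Adj w x)).card) ⟨hne.some, Finset.mem_univ _⟩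
  by_cases hdom : ∀ x, x ≠ w → F.Adj w x
  · exact Or.inl ⟨w, hdom⟩
  push Not at hdom
  obtain ⟨x, hxw, hwx⟩ := hdom
  right
  refine ⟨{y | y = w ∨ F.Adj w y}, ⟨w, Or.inl rfl⟩, ⟨x, ?_⟩, ?_⟩
  · simp only [Set.mem_ofPred_eq, not_or]
    exact ⟨hxw, hwx⟩
  · intro y hy z hz hyz
    simp only [Set.mem_ofPred_eq, not_or] at hy hz
    obtain ⟨hzw, hwz⟩ := hz
    have hwy : F.Adj w y := by
      rcases hy with rfl | hy
      · exact absurd hyz hwz
      · exact hy
    have hall : ∀ u, F.Adj w u → u ≠ y → F.Adj y u := by
      intro u hu huy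
      by_contra hyu
      have huz : u ≠ z := by
        rintro rfl
        exact hwz hu
      by_cases huz' : F.Adj u z
      · obtain ⟨φ⟩ := c4_embedding F hwy hyz huz'.symm hu.symm hwz hyu (Ne.symm hzw) huy.symm
        exact hc4.false φ
      · obtain ⟨φ⟩ := p4_embedding F hu.symm hwy hyz (fun h => hyu h.symm) huz' hwz huy huz (Ne.symm hzw)
        exact h4.false φ
    have hsub : insert z (insert w ((Finset.univ.filter (fun u => F.Adj w u)).erase y)) ⊆
        Finset.univ.filter (fun u => F.Adj y u) := by
      intro u hu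
      rw [Finset.mem_insert, Finset.mem_insert, Finset.mem_erase, Finset.mem_filter] at hu
      rw [Finset.mem_filter]
      refine ⟨Finset.mem_univ _, ?_⟩
      rcases hu with rfl | rfl | hu
      · exact hyz
      · exact hwy.symm
      · exact hall u hu.2.2 hu.1
    have hw1 : w ∉ (Finset.univ.filter (fun u => F.Adj w u)).erase y := by
      intro h
      have := (Finset.mem_filter.mp (Finset.mem_of_mem_erase h)).2
      exact this.ne rfl
    have hz1 : z ∉ insert w ((Finset.univ.filter (fun u => F.Adj w u)).erase y) := by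
      intro h
      rcases Finset.mem_insert.mp h with h | h
      · exact hzw h
      · exact hwz (Finset.mem_filter.mp (Finset.mem_of_mem_erase h)).2
    have hcard := Finset.card_le_card hsub
    rw [Finset.card_insert_of_notMem hz1, Finset.card_insert_of_notMem hw1] at hcard
    have hyN : y ∈ Finset.univ.filter (fun u => F.Adj w u) :=
      Finset.mem_filter.mpr ⟨Finset.mem_univ _, hwy⟩
    have h5 := Finset.card_erase_add_one hyN
    have h6 := hmax y (Finset.mem_univ y)
    omega

theorem poly_trivPerf (t : ℕ) : ∀ (n : ℕ) (W : Type) [Fintype W] (F : SimpleGraph W),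
    Fintype.card W ≤ n → IsEmpty (SimpleGraph.pathGraph 4 ↪g F) →
    IsEmpty (SimpleGraph.cycleGraph 4 ↪g F) → Poly t F := by
  intro n
  induction n with
  | zero =>
    intro W _ F hcard _ _
    have hW : IsEmpty W := Fintype.card_eq_zero_iff.mp (Nat.le_zero.mp hcard)
    refine ⟨0, 0, fun V _ G _ hF => ?_⟩
    exact absurd hF (fun h => h.false
      ⟨⟨fun x => hW.elim x, fun x => hW.elim x⟩, fun {x} => hW.elim x⟩)
  | succ n ih =>
    intro W _ F hcard h4 hc4
    by_cases hne : Nonempty W
    · have hsub : ∀ (A : Set W), (∃ x, x ∉ A) → Poly t (F.induce A) := by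
        intro A hA
        obtain ⟨x, hx⟩ := hA
        apply ih A (F.induce A)
        · have h1 : Fintype.card A < Fintype.card W := by
            apply Fintype.card_lt_of_injective_of_notMem (fun a : A => a.1)
              Subtype.val_injective (b := x)
            rintro ⟨a, ha⟩
            simp only at ha
            exact hx (ha ▸ a.2)
          omega
        · exact ⟨fun φ => h4.false ((SimpleGraph.Embedding.induce A).comp φ)⟩
        · exact ⟨fun φ => hc4.false ((SimpleGraph.Embedding.induce A).comp φ)⟩
      rcases dichotomy F h4 hc4 hne with ⟨w, hw⟩ | ⟨A, hA1, hA2, hA3⟩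
      · have hpoly := poly_lolli (hsub {x | x ≠ w} ⟨w, by simp⟩)
        refine poly_mono ?_ hpoly
        refine ⟨⟨fun x => if hx : x = w then Sum.inl 2 else Sum.inr ⟨x, hx⟩, ?_⟩, ?_⟩
        · intro x y hxy
          simp only at hxy
          split_ifs at hxy with h1 h2 h2
          · rw [h1, h2]
          · have := Sum.inr.inj hxy
            exact congrArg Subtype.val this
        · intro x y
          simp only [Function.Embedding.coeFn_mk]
          by_cases h1 : x = w <;> by_cases h2 : y = w
          · rw [dif_pos h1, dif_pos h2, h1, h2]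
            simp [lolli]
          · rw [dif_pos h1, dif_neg h2, h1]
            simp only [lolli, true_iff]
            exact hw y h2
          · rw [dif_neg h1, dif_pos h2, h2]
            simp only [lolli, true_iff]
            exact (hw x h1).symm
          · rw [dif_neg h1, dif_neg h2]
            simp [lolli]
      · refine poly_union_aux (hsub A hA2) (hsub Aᶜ (by
          obtain ⟨x, hx⟩ := hA1
          exact ⟨x, by simpa using hx⟩)) ?_
        intro V G φ₁ φ₂ hφ
        refine ⟨⟨⟨fun x => if hx : x ∈ A then φ₁ ⟨x, hx⟩ else φ₂ ⟨x, hx⟩, ?_⟩, ?_⟩⟩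
        · intro x y hxy
          simp only at hxy
          split_ifs at hxy with h1 h2 h2
          · exact congrArg Subtype.val (φ₁.injective hxy)
          · exact absurd hxy (hφ _ _).1
          · exact absurd hxy.symm (hφ _ _).1
          · exact congrArg Subtype.val (φ₂.injective hxy)
        · intro x y
          simp only [Function.Embedding.coeFn_mk]
          by_cases h1 : x ∈ A <;> by_cases h2 : y ∈ A
          · rw [dif_pos h1, dif_pos h2]
            exact φ₁.map_adj_iff
          · rw [dif_pos h1, dif_neg h2]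
            constructor
            · intro h
              exact absurd h (hφ _ _).2
            · intro h
              exact absurd h (hA3 x h1 y h2)
          · rw [dif_neg h1, dif_pos h2]
            constructor
            · intro h
              exact absurd h.symm (hφ _ _).2
            · intro h
              exact absurd h.symm (hA3 y h2 x h1)
          · rw [dif_neg h1, dif_neg h2]
            exact φ₂.map_adj_iff
    · have hW : IsEmpty W := not_nonempty_iff.mp hne
      refine ⟨0, 0, fun V _ G _ hF => ?_⟩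
      exact absurd hF (fun h => h.false
        ⟨⟨fun x => hW.elim x, fun x => hW.elim x⟩, fun {x} => hW.elim x⟩)

end Pool.Agent.Helper20.Dense
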